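import Mathlib

/-!
L-SHAPED CORRIDOR, module [B], part 5: circle integrals.
-/

set_option autoImplicit false

namespace LCB
open Finset Filter Topology Metric

/-- circle integrals depend continuously on the integrand (continuous convergence) -/
theorem circle_tendsto {ι : Type*} {l : Filter ι} {F : ι → ℂ → ℂ} {F0 : ℂ → ℂ} {c : ℂ} {R : ℝ}
    (hR : 0 ≤ R) (hF : ∀ᶠ i in l, ContinuousOn (F i) (sphere c R)) (hF0 : ContinuousOn F0 (sphere c R))
    (h : ∀ z ∈ sphere c R, Tendsto (fun p : ι × ℂ => F p.1 p.2) (l ×ˢ 𝓝[sphere c R] z) (𝓝 (F0 z))) :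
    Tendsto (fun i => ∮ z in C(c, R), F i z) l (𝓝 (∮ z in C(c, R), F0 z)) := by
  have h1 : TendstoLocallyUniformlyOn F F0 l (sphere c R) := by
    rw [tendstoLocallyUniformlyOn_iff_forall_tendsto]
    intro z hz
    have h2 : Tendsto (fun p : ι × ℂ => F0 p.2) (l ×ˢ 𝓝[sphere c R] z) (𝓝 (F0 z)) :=
      (hF0 z hz).tendsto.comp tendsto_snd
    have h3 := h2.prodMk (h z hz)
    rw [← nhds_prod_eq] at h3
    exact h3.mono_right (nhds_le_uniformity _)
  have h2 : TendstoUniformlyOn F F0 l (sphere c R) :=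
    (tendstoLocallyUniformlyOn_iff_tendstoUniformlyOn_of_compact (isCompact_sphere c R)).mp h1
  rw [Metric.tendsto_nhds]
  intro ε hε
  obtain ⟨δ, hδ, hδε⟩ : ∃ δ > 0, 2 * Real.pi * R * δ < ε := by
    refine ⟨ε / (2 * Real.pi * R + 1), by positivity, ?_⟩
    rw [mul_div_assoc', div_lt_iff₀ (by positivity)]
    nlinarith
  rw [Metric.tendstoUniformlyOn_iff] at h2
  filter_upwards [h2 δ hδ, hF] with i hi hci
  rw [dist_eq_norm, ← circleIntegral.integral_sub (hci.circleIntegrable hR) (hF0.circleIntegrable hR)]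
  refine lt_of_le_of_lt (circleIntegral.norm_integral_le_of_norm_le_const hR fun z hz => ?_) hδε
  have := hi z hz
  rw [dist_comm, dist_eq_norm] at this
  exact this.le

/-- partial fractions -/
theorem part_frac {κ : Type*} [DecidableEq κ] {B : Finset κ} {e : κ → ℂ} (he : Set.InjOn e B)
    (hB : B.Nonempty) {z : ℂ} (hz : ∀ b ∈ B, z ≠ e b) :
    (∏ b ∈ B, (z - e b))⁻¹ = ∑ b ∈ B, (∏ i ∈ B.erase b, (e b - e i))⁻¹ * (z - e b)⁻¹ := by
  have h1 := Lagrange.eval_interpolate_not_at_node (s := B) (v := e) (r := 1) hz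
  rw [Lagrange.interpolate_one he hB, Polynomial.eval_one, Lagrange.eval_nodal] at h1
  have h0 : ∏ b ∈ B, (z - e b) ≠ 0 := prod_ne_zero_iff.mpr fun b hb => sub_ne_zero.mpr (hz b hb)
  rw [inv_eq_of_mul_eq_one_right h1.symm]
  refine sum_congr rfl fun b hb => ?_
  rw [Lagrange.nodalWeight, Pi.one_apply, mul_one, Finset.prod_inv_distrib]

/-- the residue formula -/
theorem circle_res {κ : Type*} [DecidableEq κ] {B : Finset κ} {e : κ → ℂ} (he : Set.InjOn e B)
    {c : ℂ} {R : ℝ} (hR : 0 < R) (hB : ∀ b ∈ B, e b ∈ ball c R) {h : ℂ → ℂ}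
    (hh : DifferentiableOn ℂ h (closedBall c R)) :
    (∮ z in C(c, R), h z / ∏ b ∈ B, (z - e b)) =
      2 * Real.pi * Complex.I * ∑ b ∈ B, h (e b) / ∏ i ∈ B.erase b, (e b - e i) := by
  rcases B.eq_empty_or_nonempty with rfl | hne
  · simp only [prod_empty, div_one, sum_empty, mul_zero]
    exact (hh.mono closure_ball_subset_closedBall).diffContOnCl.circleIntegral_eq_zero hR.le
  have hz : ∀ z ∈ sphere c R, ∀ b ∈ B, z ≠ e b := by
    rintro z hz b hb rfl
    have h1 := hB b hb
    rw [mem_ball] at h1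
    rw [mem_sphere] at hz
    exact absurd hz h1.ne
  have hc : ContinuousOn h (sphere c R) := hh.continuousOn.mono sphere_subset_closedBall
  have e1 : (∮ z in C(c, R), h z / ∏ b ∈ B, (z - e b)) =
      ∮ z in C(c, R), ∑ b ∈ B, (∏ i ∈ B.erase b, (e b - e i))⁻¹ * ((z - e b)⁻¹ • h z) := by
    refine circleIntegral.integral_congr hR.le fun z hz' => ?_
    rw [div_eq_mul_inv, part_frac he hne (hz z hz'), mul_sum]
    refine sum_congr rfl fun b _ => ?_
    rw [smul_eq_mul]
    ring
  rw [e1, circleIntegral.integral_fun_sum, mul_sum]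
  · refine sum_congr rfl fun b hb => ?_
    rw [circleIntegral.integral_const_mul,
      DifferentiableOn.circleIntegral_sub_inv_smul hh (hB b hb), smul_eq_mul]
    ring
  · intro b hb
    refine ContinuousOn.circleIntegrable hR.le ?_
    have h1 : ContinuousOn (fun z : ℂ => (z - e b)⁻¹) (sphere c R) :=
      ContinuousOn.inv₀ (by fun_prop) fun z hz' => sub_ne_zero.mpr (hz z hz' b hb)
    exact continuousOn_const.mul (h1.smul hc)

/-- the function `(w+2)/(w-2)` -/
noncomputable def uc (w : ℂ) : ℂ := (w + 2) / (w - 2)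

theorem sph_ne {z : ℂ} {R : ℝ} (hR : 0 < R) (hz : z ∈ sphere (2 : ℂ) R) : z - 2 ≠ 0 := by
  rw [mem_sphere, dist_eq_norm] at hz
  intro h
  rw [h, norm_zero] at hz
  exact hR.ne hz

theorem uc_cont {R : ℝ} (hR : 0 < R) : ContinuousOn uc (sphere 2 R) := by
  unfold uc
  exact ContinuousOn.div (by fun_prop) (by fun_prop) fun z hz => sph_ne hR hz

/-- the `J` lemma -/
theorem J_lemma {R : ℝ} (hR : 0 < R) (n : ℕ) :
    (∮ w in C(2, R), uc w ^ n / (w - 2)) = 2 * Real.pi * Complex.I := by
  have e1 : (∮ w in C(2, R), uc w ^ n / (w - 2)) =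
      ∮ w in C(2, R), ∑ k ∈ range (n + 1), (4 ^ k * (n.choose k : ℂ)) * (w - 2) ^ (-(k : ℤ) - 1) := by
    refine circleIntegral.integral_congr hR.le fun w hw => ?_
    have hw2 := sph_ne hR hw
    have e2 : uc w = 4 * (w - 2)⁻¹ + 1 := by
      unfold uc
      field_simp
      ring
    rw [e2, add_pow, sum_div]
    refine sum_congr rfl fun k _ => ?_
    rw [zpow_sub₀ hw2, zpow_neg, zpow_one, zpow_natCast, one_pow, mul_pow, inv_pow]
    field_simp
  rw [e1, circleIntegral.integral_fun_sum]
  · rw [sum_eq_single 0]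
    · rw [circleIntegral.integral_const_mul]
      simp only [pow_zero, Nat.choose_zero_right, Nat.cast_one, mul_one, Nat.cast_zero, neg_zero,
        zero_sub, one_mul, zpow_neg, zpow_one]
      exact circleIntegral.integral_sub_center_inv 2 hR.ne'
    · intro k _ hk
      rw [circleIntegral.integral_const_mul, circleIntegral.integral_sub_zpow_of_ne (by omega),
        mul_zero]
    · intro h
      simp at h
  · intro k _
    refine ContinuousOn.circleIntegrable hR.le ?_
    refine continuousOn_const.mul (ContinuousOn.zpow₀ (by fun_prop) _ fun w hw => Or.inl (sph_ne hR hw))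

/-- the outer values -/
theorem outer_lemma {R : ℝ} (hR : 0 < R) {z : ℂ} (hz : z ∉ closedBall (2 : ℂ) R) (j : ℕ) :
    (∮ w in C(2, R), uc w ^ j / (z - w)) = 2 * Real.pi * Complex.I * (uc z ^ j - 1) := by
  have hz2 : z - 2 ≠ 0 := by
    intro h
    apply hz
    rw [mem_closedBall, dist_eq_norm, h, norm_zero]
    exact hR.le
  have hzw : ∀ w ∈ closedBall (2 : ℂ) R, z - w ≠ 0 := by
    intro w hw h
    rw [sub_eq_zero] at h
    exact hz (h ▸ hw)
  have e1 : (∮ w in C(2, R), uc w ^ j / (z - w)) =
      ∮ w in C(2, R), (uc z ^ j / (z - w) + ∑ i ∈ range j, (4 * uc z ^ (j - 1 - i) / (z - 2)) *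
        (uc w ^ i / (w - 2))) := by
    refine circleIntegral.integral_congr hR.le fun w hw => ?_
    have hw2 := sph_ne hR hw
    have hzw' := hzw w (sphere_subset_closedBall hw)
    have e2 : uc w - uc z = 4 * (z - w) / ((w - 2) * (z - 2)) := by
      unfold uc
      field_simp
      ring
    have e3 := (Commute.all (uc w) (uc z)).geom_sum₂_mul j
    rw [e2] at e3
    have e4 : ∑ i ∈ range j, (4 * uc z ^ (j - 1 - i) / (z - 2)) * (uc w ^ i / (w - 2)) =
        (∑ i ∈ range j, uc w ^ i * uc z ^ (j - 1 - i)) * (4 / ((w - 2) * (z - 2))) := by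
      rw [sum_mul]
      refine sum_congr rfl fun i _ => ?_
      field_simp
    rw [e4, div_add' _ _ _ hzw', div_left_inj' hzw']
    rw [mul_div_assoc'] at e3
    linear_combination -e3
  rw [e1, circleIntegral.integral_add, circleIntegral.integral_fun_sum]
  · have e5 : (∮ w in C(2, R), uc z ^ j / (z - w)) = 0 := by
      refine (DifferentiableOn.diffContOnCl ?_).circleIntegral_eq_zero hR.le
      intro w hw
      have := hzw w (closure_ball_subset_closedBall hw)
      exact (DifferentiableAt.div (by fun_prop) (by fun_prop) this).differentiableWithinAt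
    rw [e5, zero_add]
    simp only [circleIntegral.integral_const_mul, J_lemma hR]
    rw [← sum_mul]
    have e6 : (∑ i ∈ range j, uc z ^ i) * (uc z - 1) = uc z ^ j - 1 := geom_sum_mul _ _
    have e7 : uc z - 1 = 4 / (z - 2) := by
      unfold uc
      field_simp
      ring
    rw [← e6, e7, ← sum_range_reflect (fun i => uc z ^ i) j, sum_mul]
    rw [mul_comm (2 * (Real.pi : ℂ) * Complex.I), sum_mul, sum_mul]
    refine sum_congr rfl fun i _ => ?_
    ring
  · intro i _
    refine ContinuousOn.circleIntegrable hR.le ?_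
    exact continuousOn_const.mul (((uc_cont hR).pow i).div (by fun_prop) fun w hw => sph_ne hR hw)
  · refine ContinuousOn.circleIntegrable hR.le ?_
    exact ContinuousOn.div (by fun_prop) (by fun_prop) fun w hw => hzw w (sphere_subset_closedBall hw)
  · refine ContinuousOn.circleIntegrable hR.le ?_
    refine continuousOn_finsetSum _ fun i _ => ?_
    exact continuousOn_const.mul (((uc_cont hR).pow i).div (by fun_prop) fun w hw => sph_ne hR hw)

/-- the final integrals -/
theorem final_lemma (j l : ℕ) :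
    (∮ z in C(2, 1 / 2), uc z ^ j * (((z - 2) / (z + 2)) ^ l / (z + 2))) =
      if l < j then 2 * Real.pi * Complex.I else 0 := by
  have hR : (0 : ℝ) < 1 / 2 := by norm_num
  have hp : ∀ z ∈ closedBall (2 : ℂ) (1 / 2), z + 2 ≠ 0 := by
    intro z hz h
    rw [mem_closedBall, dist_eq_norm] at hz
    have : z - 2 = -4 := by linear_combination h
    rw [this] at hz
    norm_num at hz
  split_ifs with h
  · rw [← J_lemma hR (j - l - 1)]
    refine circleIntegral.integral_congr hR.le fun w hw => ?_
    have hw2 := sph_ne hR hw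
    have hw3 := hp w (sphere_subset_closedBall hw)
    obtain ⟨n, rfl⟩ : ∃ n, j = l + n + 1 := ⟨j - l - 1, by omega⟩
    rw [show l + n + 1 - l - 1 = n by omega]
    unfold uc
    rw [div_pow, div_pow, div_pow]
    field_simp
    ring
  · push Not at h
    obtain ⟨n, rfl⟩ : ∃ n, l = j + n := ⟨l - j, by omega⟩
    have e1 : (∮ z in C(2, 1 / 2), uc z ^ j * (((z - 2) / (z + 2)) ^ (j + n) / (z + 2))) =
        ∮ z in C(2, 1 / 2), ((z - 2) / (z + 2)) ^ n / (z + 2) := by
      refine circleIntegral.integral_congr hR.le fun w hw => ?_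
      have hw2 := sph_ne hR hw
      have hw3 := hp w (sphere_subset_closedBall hw)
      unfold uc
      rw [div_pow, div_pow, div_pow]
      field_simp
      ring
    rw [e1]
    refine (DifferentiableOn.diffContOnCl ?_).circleIntegral_eq_zero hR.le
    intro w hw
    have := hp w (closure_ball_subset_closedBall hw)
    have h1 : DifferentiableAt ℂ (fun z : ℂ => (z - 2) / (z + 2)) w :=
      DifferentiableAt.div (by fun_prop) (by fun_prop) this
    exact ((h1.pow n).div (by fun_prop) this).differentiableWithinAt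

end LCB
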