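import Pool.Agent.Helper25.LC.Kern

/-!
L-SHAPED CORRIDOR, module [B], part 7: the homogeneous limit of the formula.
-/

set_option autoImplicit false

namespace LCB
open Finset Polynomial LCor Filter Topology IP.Slit LCA Metric

/-- `1 + ∑ (al / nu) / (z - b)` -/
noncomputable def GF (B : Finset ℝ) (v : ℝ) (z : ℂ) : ℂ :=
  1 + ∑ b ∈ B, ((al B v b / nu B v : ℝ) : ℂ) / (z - b)

variable {ι : Type*} {l : Filter ι}

/-- enumerations which tend to the constant sequence -/
theorem enum_tendsto {m : ℕ} {B : ι → Finset ℝ} {v : ι → ℝ} (hcard : ∀ᶠ i in l, (B i).card = m)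
    (hB : ∀ ε > 0, ∀ᶠ i in l, ∀ b ∈ B i, |b - 2| < ε) (hv : Tendsto v l (𝓝 2)) :
    ∃ y : ι → ℕ → ℝ, (∀ᶠ i in l, (B i).val = (Multiset.range m).map (y i)) ∧
      Tendsto (fun i => xs m (y i) (v i)) l (𝓝 (fun _ => 2)) ∧
      ∀ᶠ i in l, ∀ n, |xs m (y i) (v i) n - 2| < 1 / 2 := by
  have h1 : ∀ i, ∃ y : ℕ → ℝ, (B i).val = (Multiset.range (B i).card).map y := fun i =>
    exists_enum (B i).val
  choose y hy using h1
  have hy' : ∀ᶠ i in l, (B i).val = (Multiset.range m).map (y i) := by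
    filter_upwards [hcard] with i hi
    rw [← hi]
    exact hy i
  have hε : ∀ ε > 0, ∀ᶠ i in l, ∀ n, |xs m (y i) (v i) n - 2| < ε := by
    intro ε hε
    have hv' : ∀ᶠ i in l, |v i - 2| < ε := by
      have := (Metric.tendsto_nhds.mp hv) ε hε
      simpa only [Real.dist_eq] using this
    filter_upwards [hB ε hε, hy', hv'] with i h1 h2 h3 n
    unfold xs
    have h4 : ∀ k < m, y i k ∈ B i := by
      intro k hk
      have : y i k ∈ (B i).val := by
        rw [h2]
        exact Multiset.mem_map_of_mem _ (Multiset.mem_range.mpr hk)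
      exact this
    split_ifs with h5 h6
    · exact h1 _ (h4 _ h5)
    · exact h1 _ (h4 _ (by omega))
    · exact h3
  refine ⟨y, hy', ?_, hε (1 / 2) (by norm_num)⟩
  rw [tendsto_pi_nhds]
  intro n
  rw [Metric.tendsto_nhds]
  intro ε h
  filter_upwards [hε ε h] with i hi
  rw [Real.dist_eq]
  exact hi n

theorem chi_ev {m : ℕ} {x : ι → ℕ → ℝ} (hx : Tendsto x l (𝓝 (fun _ => 2))) :
    ∀ᶠ i in l, Chi (2 * m + 1) (x i) ≠ 0 := by
  have h1 := ((Chi_continuous_real (2 * m + 1)).tendsto (fun _ => 2)).comp hx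
  exact h1.eventually_ne (Chi_two_pos (2 * m + 1)).ne'

/-- the outer function near `2` -/
theorem GF_tendsto {m : ℕ} {p : ℕ → ℝ} (hp : IsLaw m p) {B : ι → Finset ℝ} {v : ι → ℝ}
    (hcard : ∀ᶠ i in l, (B i).card = m)
    (hB : ∀ ε > 0, ∀ᶠ i in l, ∀ b ∈ B i, |b - 2| < ε) (hv : Tendsto v l (𝓝 2)) {z0 : ℂ}
    (hz0 : z0 ∉ closedBall (2 : ℂ) (1 / 2)) :
    Tendsto (fun q : ι × ℂ => GF (B q.1) (v q.1) q.2) (l ×ˢ 𝓝 z0)
      (𝓝 (∑ j ∈ range (m + 1), (p j : ℂ) * uc z0 ^ j)) := by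
  obtain ⟨y, hy, hlim, hx⟩ := enum_tendsto hcard hB hv
  have hχ := chi_ev (m := m) hlim
  have hR : (0 : ℝ) < 1 / 2 := by norm_num
  have hπ : (2 * Real.pi * Complex.I : ℂ) ≠ 0 := by
    simp [Real.pi_ne_zero]
  have hopen : ∀ᶠ z in 𝓝 z0, z ∉ closedBall (2 : ℂ) (1 / 2) :=
    isClosed_closedBall.isOpen_compl.mem_nhds hz0
  have hdiff : ∀ z ∉ closedBall (2 : ℂ) (1 / 2),
      DifferentiableOn ℂ (fun w => 1 / (z - w)) (closedBall 2 (1 / 2)) := by
    intro z hz w hw
    have : z - w ≠ 0 := by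
      intro h
      rw [sub_eq_zero] at h
      exact hz (h ▸ hw)
    exact (DifferentiableAt.div (by fun_prop) (by fun_prop) this).differentiableWithinAt
  -- the integral
  have hcirc : Tendsto (fun q : ι × ℂ => ∮ w in C(2, 1 / 2), KN m (xs m (y q.1) (v q.1)) w *
      (1 / (q.2 - w))) (l ×ˢ 𝓝 z0) (𝓝 (∮ w in C(2, 1 / 2), KN m (fun _ => 2) w * (1 / (z0 - w)))) := by
    refine circle_tendsto hR.le ?_ ?_ ?_
    · filter_upwards [(hχ.and hx).prod_mk hopen] with q hq
      obtain ⟨⟨h1, h2⟩, h3⟩ := hq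
      exact (KN_contOn h1 h2).mul ((hdiff _ h3).continuousOn.mono sphere_subset_closedBall)
    · refine ContinuousOn.mul ?_ ((hdiff _ hz0).continuousOn.mono sphere_subset_closedBall)
      exact KN_contOn (Chi_two_pos (2 * m + 1)).ne' (fun _ => by norm_num)
    · intro w hw
      have h1 : Tendsto (fun q : (ι × ℂ) × ℂ => (xs m (y q.1.1) (v q.1.1), q.2))
          ((l ×ˢ 𝓝 z0) ×ˢ 𝓝[sphere 2 (1 / 2)] w) (𝓝 (fun _ => 2, w)) := by
        rw [nhds_prod_eq]
        refine Tendsto.prodMk ?_ ?_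
        · exact hlim.comp (tendsto_fst.comp tendsto_fst)
        · exact (tendsto_id.mono_left nhdsWithin_le_nhds).comp tendsto_snd
      have h2 := (KN_cont m hw).tendsto.comp h1
      have h3 : z0 - w ≠ 0 := by
        intro h
        rw [sub_eq_zero] at h
        exact hz0 (h ▸ sphere_subset_closedBall hw)
      have h4 : Tendsto (fun q : (ι × ℂ) × ℂ => 1 / (q.1.2 - q.2))
          ((l ×ˢ 𝓝 z0) ×ˢ 𝓝[sphere 2 (1 / 2)] w) (𝓝 (1 / (z0 - w))) := by
        refine Tendsto.div tendsto_const_nhds (Tendsto.sub ?_ ?_) h3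
        · exact tendsto_snd.comp tendsto_fst
        · exact (tendsto_id.mono_left nhdsWithin_le_nhds).comp tendsto_snd
      exact h2.mul h4
  have hval : (∮ w in C(2, 1 / 2), KN m (fun _ => 2) w * (1 / (z0 - w))) =
      2 * Real.pi * Complex.I * (∑ j ∈ range (m + 1), (p j : ℂ) * uc z0 ^ j - 1) := by
    rw [KN_two_integral hp (hdiff _ hz0)]
    have h1 : ∀ j, (∮ z in C(2, 1 / 2), uc z ^ j * (1 / (z0 - z))) =
        2 * Real.pi * Complex.I * (uc z0 ^ j - 1) := by
      intro j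
      rw [← outer_lemma hR hz0 j]
      refine circleIntegral.integral_congr hR.le fun w _ => ?_
      ring
    simp only [h1]
    have h2 : (∑ j ∈ range (m + 1), (p j : ℂ)) = 1 := by
      have := hp.sum
      exact_mod_cast this
    have h3 : (∑ j ∈ range (m + 1), (p j : ℂ) * uc z0 ^ j - 1) =
        ∑ j ∈ range (m + 1), (p j : ℂ) * (uc z0 ^ j - 1) := by
      simp only [mul_sub, mul_one]
      rw [sum_sub_distrib, h2]
    rw [h3, mul_sum]
    refine sum_congr rfl fun j _ => ?_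
    ring
  rw [hval] at hcirc
  have hfin := (hcirc.const_mul (2 * Real.pi * Complex.I : ℂ)⁻¹).const_add 1
  rw [inv_mul_cancel_left₀ hπ, add_sub_cancel] at hfin
  refine hfin.congr' ?_
  filter_upwards [((hχ.and hx).and hy).prod_mk hopen] with q hq
  obtain ⟨⟨⟨h1, h2⟩, h3⟩, h4⟩ := hq
  rw [KN_res h3 h1 h2 (hdiff _ h4), inv_mul_cancel_left₀ hπ]
  unfold GF
  congr 1
  refine sum_congr rfl fun b _ => ?_
  rw [mul_one_div]

/-! ### the mirror image -/

/-- the sign of `Chi r (-x) / Chi r x` -/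
noncomputable def sg (r : ℕ) : ℝ :=
  (∏ i ∈ range r, (-1 : ℝ) ^ i) * ∏ j ∈ range r, (-1 : ℝ) ^ (j / 2 + j % 2)

theorem sg_sq (r : ℕ) : sg r * sg r = 1 := by
  unfold sg
  have h : ∀ f : ℕ → ℕ, (∏ i ∈ range r, (-1 : ℝ) ^ (f i)) * (∏ i ∈ range r, (-1 : ℝ) ^ (f i)) = 1 := by
    intro f
    rw [← prod_mul_distrib]
    refine prod_eq_one fun i _ => ?_
    rw [← mul_pow]
    simp
  have h1 := h (fun i => i)
  have h2 := h (fun j => j / 2 + j % 2)
  linear_combination ((∏ j ∈ range r, (-1 : ℝ) ^ (j / 2 + j % 2)) *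
    ∏ j ∈ range r, (-1 : ℝ) ^ (j / 2 + j % 2)) * h1 + h2

theorem sg_odd (k : ℕ) : sg (2 * k + 1) = (-1) ^ k * sg (2 * k) := by
  unfold sg
  rw [prod_range_succ, prod_range_succ, show 2 * k / 2 + 2 * k % 2 = k by omega,
    show (-1 : ℝ) ^ (2 * k) = 1 by rw [pow_mul]; norm_num]
  ring

theorem Chi_neg' (r : ℕ) (x : ℕ → ℝ) : Chi r (fun i => -x i) = sg r * Chi r x := by
  have hentry : ∀ i j : ℕ, (dd (fun j => -x j) (ph ℝ j) i).eval (-x i) =
      (-1) ^ i * (-1) ^ (j / 2 + j % 2) * (dd x (ph ℝ j) i).eval (x i) := by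
    intro i j
    have h1 := dd_neg (fun j => -x j) (ph ℝ j) i
    simp only [neg_neg] at h1
    have h2 : dd (fun j => -x j) ((ph ℝ j).comp (-X)) i =
        C ((-1) ^ (j / 2 + j % 2)) * dd (fun j => -x j) (ph ℝ j) i := by
      rw [ph_neg, show ((-1) ^ (j / 2 + j % 2) * ph ℝ j : ℝ[X]) =
        C ((-1) ^ (j / 2 + j % 2)) * ph ℝ j by simp, wh_dd_Cmul]
    rw [h2] at h1
    have h3 := congrArg (eval (-x i)) h1
    simp only [eval_mul, eval_C, eval_comp, eval_neg, eval_X, neg_neg, eval_pow, eval_one] at h3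
    have h4 : ((-1 : ℝ) ^ (j / 2 + j % 2)) * ((-1) ^ (j / 2 + j % 2)) = 1 := by
      rw [← mul_pow]; simp
    calc (dd (fun j => -x j) (ph ℝ j) i).eval (-x i)
        = ((-1 : ℝ) ^ (j / 2 + j % 2) * (-1) ^ (j / 2 + j % 2)) *
          (dd (fun j => -x j) (ph ℝ j) i).eval (-x i) := by rw [h4, one_mul]
      _ = (-1) ^ (j / 2 + j % 2) * ((-1) ^ (j / 2 + j % 2) *
          (dd (fun j => -x j) (ph ℝ j) i).eval (-x i)) := by ring
      _ = _ := by rw [h3]; ring
  have h1 : (Matrix.of fun i j : Fin r => (dd (fun j => -x j) (ph ℝ j) i).eval (-x i)) =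
      Matrix.of fun i j : Fin r => ((-1 : ℝ) ^ (i : ℕ)) *
        ((Matrix.of fun i j : Fin r => ((-1 : ℝ) ^ ((j : ℕ) / 2 + (j : ℕ) % 2)) *
          ((Matrix.of fun i j : Fin r => (dd x (ph ℝ j) i).eval (x i)) i j)) i j) := by
    ext i j
    simp only [Matrix.of_apply]
    rw [hentry]
    ring
  have h2 : Chi r (fun i => -x i) = (∏ i : Fin r, (-1 : ℝ) ^ (i : ℕ)) *
      ((∏ j : Fin r, (-1 : ℝ) ^ ((j : ℕ) / 2 + (j : ℕ) % 2)) * Chi r x) := by
    unfold Chi
    rw [h1, Matrix.det_mul_column, Matrix.det_mul_row]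
  rw [h2, Fin.prod_univ_eq_prod_range (fun i => (-1 : ℝ) ^ i) r,
    Fin.prod_univ_eq_prod_range (fun j => (-1 : ℝ) ^ (j / 2 + j % 2)) r]
  unfold sg
  ring

theorem chiM_neg (s : Multiset ℝ) :
    chiM (s.map (fun x => -x)) = sg (Multiset.card s) * chiM s := by
  obtain ⟨x, hx⟩ := exists_enum s
  set n := Multiset.card s
  rw [hx, Multiset.map_map, chiM_map_range, chiM_map_range]
  exact Chi_neg' n x

/-- the mirror image of a set -/
def mir (B : Finset ℝ) : Finset ℝ := B.map (Equiv.neg ℝ).toEmbedding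

theorem mir_val (B : Finset ℝ) : (mir B).val = B.val.map (fun x => -x) := rfl

theorem mir_erase (B : Finset ℝ) (b : ℝ) : (mir B).erase (-b) = mir (B.erase b) := by
  unfold mir
  rw [Finset.map_erase]
  rfl

theorem mir_card (B : Finset ℝ) : (mir B).card = B.card := by
  unfold mir
  exact Finset.card_map _

theorem nu_mir (B : Finset ℝ) (v : ℝ) : nu (mir B) (-v) = sg (2 * B.card + 1) * nu B v := by
  unfold nu
  have e : (mir B).val + (mir B).val + {-v} = (B.val + B.val + {v}).map (fun x => -x) := by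
    rw [mir_val, Multiset.map_add, Multiset.map_add, Multiset.map_singleton]
  rw [e, chiM_neg]
  congr 2
  rw [Multiset.card_add, Multiset.card_add, Multiset.card_singleton, Finset.card_val]
  ring

theorem al_mir {B : Finset ℝ} (v : ℝ) {b : ℝ} (hb : b ∈ B) :
    al (mir B) (-v) (-b) = (-1) ^ (B.card - 1) * sg (2 * B.card) * al B v b := by
  unfold al
  have e : (mir B).val + ((mir B).erase (-b)).val + {-v} =
      (B.val + (B.erase b).val + {v}).map (fun x => -x) := by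
    rw [mir_erase, mir_val, mir_val, Multiset.map_add, Multiset.map_add, Multiset.map_singleton]
  have hcard : Multiset.card (B.val + (B.erase b).val + {v}) = 2 * B.card := by
    have h1 : 0 < B.card := Finset.card_pos.mpr ⟨b, hb⟩
    rw [Multiset.card_add, Multiset.card_add, Multiset.card_singleton, Finset.card_val,
      Finset.card_val, Finset.card_erase_of_mem hb]
    omega
  have hprod : ∏ i ∈ (mir B).erase (-b), qq i (-b) / (-b - i) =
      (-1) ^ (B.card - 1) * ∏ i ∈ B.erase b, qq i b / (b - i) := by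
    rw [mir_erase]
    unfold mir
    rw [Finset.prod_map, ← Finset.card_erase_of_mem hb, ← Finset.prod_const, ← prod_mul_distrib]
    refine prod_congr rfl fun i _ => ?_
    have h1 : (Equiv.neg ℝ).toEmbedding i = -i := rfl
    rw [h1]
    have h2 : qq (-i) (-b) = qq i b := by unfold qq; ring
    rw [h2, show -b - -i = -(b - i) by ring, div_neg]
    ring
  rw [e, chiM_neg, hcard, hprod]
  ring

theorem ratio_mir {B : Finset ℝ} (v : ℝ) {b : ℝ} (hb : b ∈ B) :
    al (mir B) (-v) (-b) / nu (mir B) (-v) = -(al B v b / nu B v) := by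
  obtain ⟨n, hn⟩ : ∃ n, B.card = n + 1 := by
    have h1 : 0 < B.card := Finset.card_pos.mpr ⟨b, hb⟩
    exact ⟨B.card - 1, by omega⟩
  rw [al_mir v hb, nu_mir, sg_odd, hn, show n + 1 - 1 = n by omega]
  have h1 : (-1 : ℝ) ^ (n + 1) * sg (2 * (n + 1)) ≠ 0 := by
    refine mul_ne_zero (pow_ne_zero _ (by norm_num)) ?_
    intro h
    have := sg_sq (2 * (n + 1))
    rw [h] at this
    norm_num at this
  have h2 : (-1 : ℝ) ^ n * sg (2 * (n + 1)) * al B v b =
      ((-1 : ℝ) ^ (n + 1) * sg (2 * (n + 1))) * (-al B v b) := by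
    rw [pow_succ]; ring
  rw [h2, mul_div_mul_left _ _ h1, neg_div]

theorem GF_mir (B : Finset ℝ) (v : ℝ) (z : ℂ) : GF (mir B) (-v) (-z) = GF B v z := by
  unfold GF
  congr 1
  have h0 : ∑ b ∈ mir B, ((al (mir B) (-v) b / nu (mir B) (-v) : ℝ) : ℂ) / (-z - b) =
      ∑ b ∈ B, ((al (mir B) (-v) (-b) / nu (mir B) (-v) : ℝ) : ℂ) / (-z - ((-b : ℝ) : ℂ)) := by
    conv_lhs => unfold mir
    rw [Finset.sum_map]
    rfl
  rw [h0]
  refine sum_congr rfl fun b hb => ?_
  rw [ratio_mir v hb]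
  push_cast
  rw [show -z - -(b : ℂ) = -(z - b) by ring, neg_div_neg_eq]

/-- the outer function near `-2` -/
theorem GF_tendsto' {k : ℕ} {q : ℕ → ℝ} (hq : IsLaw k q) {Y : ι → Finset ℝ} {a : ι → ℝ}
    (hcard : ∀ᶠ i in l, (Y i).card = k)
    (hY : ∀ ε > 0, ∀ᶠ i in l, ∀ y ∈ Y i, |y + 2| < ε) (ha : Tendsto a l (𝓝 (-2))) {z0 : ℂ}
    (hz0 : -z0 ∉ closedBall (2 : ℂ) (1 / 2)) :
    Tendsto (fun s : ι × ℂ => GF (Y s.1) (a s.1) s.2) (l ×ˢ 𝓝 z0)
      (𝓝 (∑ n ∈ range (k + 1), (q n : ℂ) * ((z0 - 2) / (z0 + 2)) ^ n)) := by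
  have h1 := GF_tendsto (l := l) hq (B := fun i => mir (Y i)) (v := fun i => -a i)
    (by filter_upwards [hcard] with i hi; rw [mir_card, hi])
    (by
      intro ε hε
      filter_upwards [hY ε hε] with i hi b hb
      unfold mir at hb
      rw [Finset.mem_map] at hb
      obtain ⟨y, hy, rfl⟩ := hb
      have h2 : (Equiv.neg ℝ).toEmbedding y = -y := rfl
      have := hi y hy
      rw [h2, show -y - 2 = -(y + 2) by ring, abs_neg]
      exact this)
    (by have := ha.neg; rwa [neg_neg] at this) hz0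
  have h2 : Tendsto (fun s : ι × ℂ => (s.1, -s.2)) (l ×ˢ 𝓝 z0) (l ×ˢ 𝓝 (-z0)) :=
    tendsto_fst.prodMk ((continuous_neg.tendsto z0).comp tendsto_snd)
  have h3 := h1.comp h2
  have e : uc (-z0) = (z0 - 2) / (z0 + 2) := by
    unfold uc
    rw [show -z0 + 2 = -(z0 - 2) by ring, show -z0 - 2 = -(z0 + 2) by ring, neg_div_neg_eq]
  rw [e] at h3
  refine h3.congr fun s => ?_
  exact GF_mir _ _ _

/-! ### the theorem -/

theorem gN_GF {Y : Finset ℝ} {a : ℝ} (hν : nu Y a ≠ 0) (x : ℝ) :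
    ((gN Y a x / (nu Y a * (x - a)) : ℝ) : ℂ) = GF Y a x / ((x : ℂ) - a) := by
  unfold gN GF
  have h1 : (nu Y a + ∑ i ∈ Y, al Y a i / (x - i)) / (nu Y a * (x - a)) =
      (1 + ∑ i ∈ Y, (al Y a i / nu Y a) / (x - i)) / (x - a) := by
    rw [← div_div, add_div, div_self hν, sum_div]
    congr 2
    refine sum_congr rfl fun i _ => ?_
    rw [div_right_comm]
  rw [h1]
  push_cast
  rfl

theorem fform_eq {B : Finset ℝ} {v : ℝ} {Y : Finset ℝ} {a : ℝ} (hν : nu Y a ≠ 0)
    (ha : ∀ b ∈ B, b - a ≠ 0) :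
    ((fform B v Y a : ℝ) : ℂ) =
      ∑ b ∈ B, ((al B v b / nu B v : ℝ) : ℂ) * (GF Y a b / ((b : ℂ) - a)) := by
  have h1 : fform B v Y a = ∑ b ∈ B, (al B v b / nu B v) * (gN Y a b / (nu Y a * (b - a))) := by
    unfold fform AF
    rw [sum_div]
    refine sum_congr rfl fun b hb => ?_
    rw [← Finset.mul_prod_erase B (fun j => j - a) hb]
    have h2 : ∏ j ∈ B.erase b, (j - a) ≠ 0 :=
      prod_ne_zero_iff.mpr fun j hj => ha j (Finset.mem_of_mem_erase hj)
    have h3 := ha b hb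
    by_cases h4 : nu B v = 0
    · rw [h4]; simp
    · field_simp
  rw [h1, Complex.ofReal_sum]
  refine sum_congr rfl fun b _ => ?_
  rw [Complex.ofReal_mul, gN_GF hν]

/-- **the homogeneous limit of the formula** -/
theorem fform_tendsto {m k : ℕ} {p q : ℕ → ℝ} (hp : IsLaw m p) (hq : IsLaw k q)
    {B Y : ι → Finset ℝ} {v a : ι → ℝ} (hBc : ∀ᶠ i in l, (B i).card = m)
    (hYc : ∀ᶠ i in l, (Y i).card = k)
    (hB : ∀ ε > 0, ∀ᶠ i in l, ∀ b ∈ B i, |b - 2| < ε)
    (hY : ∀ ε > 0, ∀ᶠ i in l, ∀ y ∈ Y i, |y + 2| < ε)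
    (hv : Tendsto v l (𝓝 2)) (ha : Tendsto a l (𝓝 (-2))) :
    Tendsto (fun i => fform (B i) (v i) (Y i) (a i)) l
      (𝓝 (∑ j ∈ range (m + 1), ∑ n ∈ range j, p j * q n)) := by
  obtain ⟨y, hy, hlim, hx⟩ := enum_tendsto hBc hB hv
  have hχ := chi_ev (m := m) hlim
  have hR : (0 : ℝ) < 1 / 2 := by norm_num
  have hπ : (2 * Real.pi * Complex.I : ℂ) ≠ 0 := by
    simp [Real.pi_ne_zero]
  -- the right leg
  have hYn : ∀ᶠ i in l, nu (Y i) (a i) ≠ 0 := by
    have hYc' : ∀ᶠ i in l, (mir (Y i)).card = k := by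
      filter_upwards [hYc] with i hi
      rw [mir_card, hi]
    have hY' : ∀ ε > 0, ∀ᶠ i in l, ∀ b ∈ mir (Y i), |b - 2| < ε := by
      intro ε hε
      filter_upwards [hY ε hε] with i hi b hb
      unfold mir at hb
      rw [Finset.mem_map] at hb
      obtain ⟨y, hy, rfl⟩ := hb
      have h2 : (Equiv.neg ℝ).toEmbedding y = -y := rfl
      have := hi y hy
      rw [h2, show -y - 2 = -(y + 2) by ring, abs_neg]
      exact this
    have ha' : Tendsto (fun i => -a i) l (𝓝 2) := by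
      have := ha.neg
      rwa [neg_neg] at this
    obtain ⟨y', hy', hlim', -⟩ := enum_tendsto hYc' hY' ha'
    have hχ' := chi_ev (m := k) hlim'
    filter_upwards [hy', hχ'] with i h1 h2 h3
    apply h2
    rw [← nu_eq (xs_range (-a i) h1), nu_mir, h3, mul_zero]
  have hYb : ∀ᶠ i in l, ∀ y ∈ Y i, |y + 2| < 1 := hY 1 one_pos
  have hab : ∀ᶠ i in l, |a i + 2| < 1 := by
    have := (Metric.tendsto_nhds.mp ha) 1 one_pos
    filter_upwards [this] with i hi
    rw [Real.dist_eq, sub_neg_eq_add] at hi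
    exact hi
  have hfar : ∀ t : ℝ, |t + 2| < 1 → ∀ z ∈ closedBall (2 : ℂ) (1 / 2), z - (t : ℂ) ≠ 0 := by
    intro t ht z hz h
    rw [sub_eq_zero] at h
    rw [mem_closedBall, dist_eq_norm, h] at hz
    have : (t : ℂ) - 2 = ((t - 2 : ℝ) : ℂ) := by push_cast; ring
    rw [this, Complex.norm_real, Real.norm_eq_abs] at hz
    rw [abs_lt] at ht
    rw [abs_le] at hz
    linarith
  have hz2 : ∀ z ∈ closedBall (2 : ℂ) (1 / 2), z + 2 ≠ 0 := by
    intro z hz h
    rw [mem_closedBall, dist_eq_norm] at hz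
    have : z - 2 = -4 := by linear_combination h
    rw [this] at hz
    norm_num at hz
  have hz3 : ∀ z ∈ closedBall (2 : ℂ) (1 / 2), -z ∉ closedBall (2 : ℂ) (1 / 2) := by
    intro z hz hz'
    rw [mem_closedBall, dist_eq_norm] at hz hz'
    have h1 : ‖(4 : ℂ)‖ ≤ ‖z - 2‖ + ‖-z - 2‖ := by
      have : (4 : ℂ) = -((z - 2) + (-z - 2)) := by ring
      rw [this, norm_neg]
      exact norm_add_le _ _
    have h2 : ‖(4 : ℂ)‖ = 4 := by norm_num
    rw [h2] at h1
    linarith
  have hGdiff : ∀ i, (∀ y ∈ Y i, |y + 2| < 1) → |a i + 2| < 1 →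
      DifferentiableOn ℂ (fun z => GF (Y i) (a i) z / (z - (a i : ℂ))) (closedBall 2 (1 / 2)) := by
    intro i h1 h2 z hz
    refine DifferentiableAt.differentiableWithinAt (DifferentiableAt.div ?_ (by fun_prop) (hfar _ h2 z hz))
    unfold GF
    refine DifferentiableAt.add (differentiableAt_const _) (DifferentiableAt.fun_sum fun y hy => ?_)
    exact DifferentiableAt.div (by fun_prop) (by fun_prop) (hfar _ (h1 y hy) z hz)
  set g0 : ℂ → ℂ := fun z => (∑ n ∈ range (k + 1), (q n : ℂ) * ((z - 2) / (z + 2)) ^ n) / (z + 2) with hg0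
  have hg0diff : DifferentiableOn ℂ g0 (closedBall 2 (1 / 2)) := by
    intro z hz
    refine DifferentiableAt.differentiableWithinAt (DifferentiableAt.div ?_ (by fun_prop) (hz2 z hz))
    refine DifferentiableAt.fun_sum fun n _ => DifferentiableAt.mul (differentiableAt_const _) ?_
    have h1 : DifferentiableAt ℂ (fun z : ℂ => (z - 2) / (z + 2)) z :=
      DifferentiableAt.div (by fun_prop) (by fun_prop) (hz2 z hz)
    exact h1.pow n
  have hcirc : Tendsto (fun i => ∮ z in C(2, 1 / 2), KN m (xs m (y i) (v i)) z *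
      (GF (Y i) (a i) z / (z - (a i : ℂ)))) l (𝓝 (∮ z in C(2, 1 / 2), KN m (fun _ => 2) z * g0 z)) := by
    refine circle_tendsto hR.le ?_ ?_ ?_
    · filter_upwards [hχ, hx, hYb, hab] with i h1 h2 h3 h4
      exact (KN_contOn h1 h2).mul ((hGdiff i h3 h4).continuousOn.mono sphere_subset_closedBall)
    · refine ContinuousOn.mul ?_ (hg0diff.continuousOn.mono sphere_subset_closedBall)
      exact KN_contOn (Chi_two_pos (2 * m + 1)).ne' (fun _ => by norm_num)
    · intro w hw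
      have hw' := sphere_subset_closedBall hw
      have hid : Tendsto (fun s : ι × ℂ => s.2) (l ×ˢ 𝓝[sphere 2 (1 / 2)] w) (𝓝 w) :=
        (tendsto_id.mono_left nhdsWithin_le_nhds).comp tendsto_snd
      have h1 : Tendsto (fun s : ι × ℂ => (xs m (y s.1) (v s.1), s.2))
          (l ×ˢ 𝓝[sphere 2 (1 / 2)] w) (𝓝 (fun _ => 2, w)) := by
        rw [nhds_prod_eq]
        exact Tendsto.prodMk (hlim.comp tendsto_fst) hid
      have h2 := (KN_cont m hw).tendsto.comp h1
      have h3 := (GF_tendsto' hq hYc hY ha (hz3 w hw')).mono_left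
        (Filter.prod_mono le_rfl (nhdsWithin_le_nhds (s := sphere 2 (1 / 2))))
      have h4 : Tendsto (fun s : ι × ℂ => s.2 - (a s.1 : ℂ)) (l ×ˢ 𝓝[sphere 2 (1 / 2)] w)
          (𝓝 (w + 2)) := by
        have h5 : Tendsto (fun s : ι × ℂ => (a s.1 : ℂ)) (l ×ˢ 𝓝[sphere 2 (1 / 2)] w)
            (𝓝 ((-2 : ℝ) : ℂ)) := ((Complex.continuous_ofReal.tendsto _).comp ha).comp tendsto_fst
        have h6 := hid.sub h5
        have h7 : w - ((-2 : ℝ) : ℂ) = w + 2 := by push_cast; ring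
        rwa [h7] at h6
      exact h2.mul (h3.div h4 (hz2 w hw'))
  have hval : (∮ z in C(2, 1 / 2), KN m (fun _ => 2) z * g0 z) =
      2 * Real.pi * Complex.I * ((∑ j ∈ range (m + 1), ∑ n ∈ range j, p j * q n : ℝ) : ℂ) := by
    rw [KN_two_integral hp hg0diff, Complex.ofReal_sum, mul_sum]
    refine sum_congr rfl fun j _ => ?_
    have h1 : (∮ z in C(2, 1 / 2), uc z ^ j * g0 z) =
        ∑ n ∈ range (k + 1), (q n : ℂ) * (if n < j then 2 * Real.pi * Complex.I else 0) := by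
      have h2 : (∮ z in C(2, 1 / 2), uc z ^ j * g0 z) = ∮ z in C(2, 1 / 2), ∑ n ∈ range (k + 1),
          (q n : ℂ) * (uc z ^ j * (((z - 2) / (z + 2)) ^ n / (z + 2))) := by
        refine circleIntegral.integral_congr hR.le fun z _ => ?_
        rw [hg0]
        change uc z ^ j * ((∑ n ∈ range (k + 1), (q n : ℂ) * ((z - 2) / (z + 2)) ^ n) / (z + 2)) = _
        rw [sum_div, mul_sum]
        refine sum_congr rfl fun n _ => ?_
        ring
      rw [h2, circleIntegral.integral_fun_sum]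
      · refine sum_congr rfl fun n _ => ?_
        rw [circleIntegral.integral_const_mul, final_lemma]
      · intro n _
        refine ContinuousOn.circleIntegrable hR.le ?_
        refine continuousOn_const.mul (((uc_cont hR).pow j).mul ?_)
        refine ContinuousOn.div (ContinuousOn.pow ?_ n) (by fun_prop) fun z hz =>
          hz2 z (sphere_subset_closedBall hz)
        exact ContinuousOn.div (by fun_prop) (by fun_prop) fun z hz =>
          hz2 z (sphere_subset_closedBall hz)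
    rw [h1]
    have h3 : ∑ n ∈ range (k + 1), (q n : ℂ) * (if n < j then 2 * Real.pi * Complex.I else 0) =
        2 * Real.pi * Complex.I * ∑ n ∈ range j, (q n : ℂ) := by
      have h4 : ∑ n ∈ range (k + 1), (q n : ℂ) * (if n < j then 2 * Real.pi * Complex.I else 0) =
          ∑ n ∈ range (k + 1 + j), (q n : ℂ) * (if n < j then 2 * Real.pi * Complex.I else 0) := by
        refine sum_subset (range_subset_range.mpr (by omega)) fun n _ hn => ?_
        rw [mem_range, not_lt] at hn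
        rw [hq.zero n (by omega), Complex.ofReal_zero, zero_mul]
      rw [h4, mul_sum]
      symm
      rw [← sum_subset (range_subset_range.mpr (show j ≤ k + 1 + j by omega))]
      · refine sum_congr rfl fun n hn => ?_
        rw [if_pos (mem_range.mp hn)]
        ring
      · intro n _ hn
        rw [if_neg (by rw [mem_range] at hn; exact hn), mul_zero]
    rw [h3]
    push_cast
    rw [← mul_sum]
    ring
  rw [hval] at hcirc
  have hfin := hcirc.const_mul (2 * Real.pi * Complex.I : ℂ)⁻¹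
  rw [inv_mul_cancel_left₀ hπ] at hfin
  have hfin2 : Tendsto (fun i => ((fform (B i) (v i) (Y i) (a i) : ℝ) : ℂ)) l
      (𝓝 ((∑ j ∈ range (m + 1), ∑ n ∈ range j, p j * q n : ℝ) : ℂ)) := by
    refine hfin.congr' ?_
    filter_upwards [hχ, hx, hy, hYb, hab, hYn, hB 1 one_pos] with i h1 h2 h3 h4 h5 h6 h7
    rw [KN_res h3 h1 h2 (hGdiff i h4 h5), inv_mul_cancel_left₀ hπ]
    rw [fform_eq h6]
    intro b hb h8
    have h9 := h7 b hb
    rw [sub_eq_zero] at h8
    rw [h8] at h9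
    rw [abs_lt] at h5 h9
    linarith
  have h := (Complex.continuous_re.tendsto _).comp hfin2
  simpa only [Function.comp_def, Complex.ofReal_re] using h

end LCB
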