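import Pool.Agent.Helper25.LC.Ode
import Pool.Agent.Helper34.LC.ChiM
import Pool.Agent.Helper60.Slit.ZChi

/-!
L-SHAPED CORRIDOR, module [B], part 2: identification of the polynomial `BP` at the homogeneous point.
-/

set_option autoImplicit false

namespace LCB
open Finset Polynomial LCor Filter Topology IP.Slit

/-- `c = X^3 - 3 X` -/
noncomputable abbrev cX : ℝ[X] := X ^ 3 - C 3 * X

theorem cX_monic : cX.Monic := chiA_c_monic
theorem cX_natDegree : cX.natDegree = 3 := chiA_c_natDegree

/-- decomposition over the polynomials in `c` -/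
theorem decomp3 (m : ℕ) (P : ℝ[X]) (hP : P.natDegree ≤ 3 * m + 2) :
    ∃ A B D : ℝ[X], A.natDegree ≤ m ∧ B.natDegree ≤ m ∧ D.natDegree ≤ m ∧
      P = A.comp cX + B.comp cX * X + D.comp cX * X ^ 2 ∧ D.coeff m = P.coeff (3 * m + 2) := by
  induction m generalizing P with
  | zero =>
    refine ⟨C (P.coeff 0), C (P.coeff 1), C (P.coeff 2), by simp, by simp, by simp, ?_, by simp⟩
    simp only [C_comp]
    rw [P.as_sum_range' 3 (by omega)]
    simp only [sum_range_succ, range_zero, sum_empty, zero_add]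
    simp only [← C_mul_X_pow_eq_monomial]
    simp only [pow_zero, mul_one, pow_one]
    simp [coeff_X, coeff_C, coeff_X_pow]
  | succ m ih =>
    have hmon : (cX ^ (m + 1)).Monic := cX_monic.pow _
    have hdeg : (cX ^ (m + 1)).natDegree = 3 * m + 3 := by
      rw [cX_monic.natDegree_pow, cX_natDegree]; ring
    set q := P /ₘ cX ^ (m + 1) with hq
    set r := P %ₘ cX ^ (m + 1) with hr
    have hPqr : P = r + cX ^ (m + 1) * q := (modByMonic_add_div P (cX ^ (m + 1))).symm
    have hqd : q.natDegree ≤ 2 := by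
      rw [hq, natDegree_divByMonic _ hmon, hdeg]; omega
    have hrd : r.natDegree ≤ 3 * m + 2 := by
      have := natDegree_modByMonic_lt P hmon (by
        intro h
        have := congrArg natDegree h
        rw [hdeg, natDegree_one] at this
        omega)
      rw [hdeg, ← hr] at this
      omega
    obtain ⟨A, B, D, hA, hB, hD, hE, -⟩ := ih r hrd
    have hq3 : q = C (q.coeff 0) + C (q.coeff 1) * X + C (q.coeff 2) * X ^ 2 := by
      conv_lhs => rw [q.as_sum_range' 3 (by omega)]
      simp only [sum_range_succ, range_zero, sum_empty, zero_add]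
      simp only [← C_mul_X_pow_eq_monomial]
      simp only [pow_zero, mul_one, pow_one]
    refine ⟨A + C (q.coeff 0) * X ^ (m + 1), B + C (q.coeff 1) * X ^ (m + 1),
      D + C (q.coeff 2) * X ^ (m + 1), ?_, ?_, ?_, ?_, ?_⟩
    · exact (natDegree_add_le _ _).trans (max_le (by omega) (natDegree_C_mul_X_pow_le _ _))
    · exact (natDegree_add_le _ _).trans (max_le (by omega) (natDegree_C_mul_X_pow_le _ _))
    · exact (natDegree_add_le _ _).trans (max_le (by omega) (natDegree_C_mul_X_pow_le _ _))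
    · rw [hPqr, hE]
      simp only [add_comp, mul_comp, C_comp, X_pow_comp]
      conv_lhs => rw [hq3]
      ring
    · rw [coeff_add, coeff_eq_zero_of_natDegree_lt (by omega : D.natDegree < m + 1), zero_add,
        coeff_C_mul, coeff_X_pow, if_pos rfl, mul_one]
      conv_rhs => rw [hPqr]
      rw [coeff_add, coeff_eq_zero_of_natDegree_lt (by omega : r.natDegree < 3 * (m + 1) + 2), zero_add]
      have e : 3 * (m + 1) + 2 = (3 * m + 3) + 2 := by ring
      rw [e, coeff_mul_add_eq_of_natDegree_le hdeg.le hqd]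
      have : (cX ^ (m + 1)).coeff (3 * m + 3) = 1 := by
        rw [← hdeg]; exact hmon.coeff_natDegree
      rw [this, one_mul]

/-- linear independence of the jets of the module basis -/
theorem jets_indep {r : ℕ} {s : ℝ} (hchi : Chi r (fun _ => s) ≠ 0) (e : ℕ → ℝ)
    (h : (X - C s) ^ r ∣ ∑ j ∈ range r, C (e j) * ph ℝ j) : ∀ j < r, e j = 0 := by
  obtain ⟨Q, hQ⟩ := h
  have hdd : ∀ i ≤ r, dd (fun _ => s) (∑ j ∈ range r, C (e j) * ph ℝ j) i =
      (X - C s) ^ (r - i) * Q := by
    intro i
    induction i with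
    | zero => intro _; exact hQ
    | succ i ih =>
      intro hi
      change dq (dd (fun _ => s) _ i) s = _
      rw [ih (by omega), show r - i = (r - (i + 1)) + 1 by omega, pow_succ', mul_assoc]
      exact wh_dq_mul s _
  have hlin : ∀ i, dd (fun _ => s) (∑ j ∈ range r, C (e j) * ph ℝ j) i =
      ∑ j ∈ range r, C (e j) * dd (fun _ => s) (ph ℝ j) i := by
    intro i
    have : ∀ n, dd (fun _ => s) (∑ j ∈ range n, C (e j) * ph ℝ j) i =
        ∑ j ∈ range n, C (e j) * dd (fun _ => s) (ph ℝ j) i := by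
      intro n
      induction n with
      | zero =>
        simp only [range_zero, sum_empty]
        have := wh_dd_sub (fun _ => s) (0 : ℝ[X]) 0 i
        simpa using this
      | succ n ih =>
        rw [sum_range_succ, sum_range_succ, ← ih, ← wh_dd_Cmul]
        have h1 := wh_dd_sub (fun _ => s) (∑ j ∈ range n, C (e j) * ph ℝ j + C (e n) * ph ℝ n)
          (C (e n) * ph ℝ n) i
        rw [add_sub_cancel_right] at h1
        rw [h1]
        ring
    exact this r
  have hmat : (Matrix.of fun i j : Fin r => (dd (fun _ => s) (ph ℝ j) i).eval s).mulVec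
      (fun j => e j) = 0 := by
    funext i
    have h1 := congrArg (eval s) (hlin i)
    rw [hdd i (le_of_lt i.2), eval_mul, eval_pow, eval_sub, eval_X, eval_C, sub_self,
      zero_pow (by have := i.2; omega), zero_mul, eval_finsetSum] at h1
    simp only [Matrix.mulVec, dotProduct, Matrix.of_apply, Pi.zero_apply]
    rw [Fin.sum_univ_eq_sum_range (fun j => (dd (fun _ => s) (ph ℝ j) i).eval s * e j) r, h1]
    exact sum_congr rfl fun j _ => by rw [eval_mul, eval_C, mul_comm]
  have hz := Matrix.eq_zero_of_mulVec_eq_zero (M := Matrix.of fun i j : Fin r =>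
    (dd (fun _ => s) (ph ℝ j) i).eval s) hchi hmat
  intro j hj
  exact congrFun hz ⟨j, hj⟩

theorem ph_even (i : ℕ) : ph ℝ (2 * i) = cX ^ i := by
  unfold ph
  rw [show 2 * i / 2 = i by omega, show 2 * i % 2 = 0 by omega, pow_zero, mul_one]

theorem ph_odd (i : ℕ) : ph ℝ (2 * i + 1) = cX ^ i * X := by
  unfold ph
  rw [show (2 * i + 1) / 2 = i by omega, show (2 * i + 1) % 2 = 1 by omega, pow_one]

theorem comp_sum {W : ℝ[X]} {n : ℕ} (h : W.natDegree < n) (q : ℝ[X]) :
    W.comp q = ∑ i ∈ range n, C (W.coeff i) * q ^ i := by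
  rw [comp, eval₂_eq_sum_range' C h q]

theorem comp_sum' {W : ℝ[X]} {n : ℕ} (h : W = 0 ∨ W.natDegree < n) (q : ℝ[X]) :
    W.comp q = ∑ i ∈ range n, C (W.coeff i) * q ^ i := by
  rcases h with rfl | h
  · simp
  · exact comp_sum h q

theorem span_sum (U W : ℝ[X]) (n : ℕ) :
    ∑ j ∈ range (2 * n), C (if j % 2 = 0 then W.coeff (j / 2) else U.coeff (j / 2)) * ph ℝ j =
      ∑ i ∈ range n, C (W.coeff i) * cX ^ i + (∑ i ∈ range n, C (U.coeff i) * cX ^ i) * X := by
  induction n with
  | zero => simp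
  | succ n ih =>
    rw [show 2 * (n + 1) = 2 * n + 1 + 1 by ring, sum_range_succ, sum_range_succ, ih,
      sum_range_succ, sum_range_succ, ph_even, ph_odd]
    rw [show 2 * n / 2 = n by omega, show 2 * n % 2 = 0 by omega,
      show (2 * n + 1) / 2 = n by omega, show (2 * n + 1) % 2 = 1 by omega, if_pos rfl,
      if_neg one_ne_zero]
    ring

/-- uniqueness -/
theorem module_unique {m : ℕ} {s : ℝ} (hchi : Chi (2 * m + 1) (fun _ => s) ≠ 0) {U W : ℝ[X]}
    (hU : U.natDegree ≤ m) (hU' : U.coeff m = 0) (hW : W.natDegree ≤ m)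
    (h : (X - C s) ^ (2 * m + 1) ∣ W.comp cX + U.comp cX * X) : U = 0 := by
  have hU2 : U = 0 ∨ U.natDegree < m := by
    rcases Nat.eq_or_lt_of_le hU with h1 | h1
    · left
      rw [← h1] at hU'
      exact leadingCoeff_eq_zero.mp hU'
    · exact Or.inr h1
  have e1 : W.comp cX + U.comp cX * X = ∑ j ∈ range (2 * m + 1),
      C (if j % 2 = 0 then W.coeff (j / 2) else U.coeff (j / 2)) * ph ℝ j := by
    rw [sum_range_succ, span_sum, comp_sum (n := m + 1) (by omega) cX, comp_sum' hU2 cX,
      sum_range_succ, ph_even, show 2 * m / 2 = m by omega, show 2 * m % 2 = 0 by omega, if_pos rfl]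
    ring
  rw [e1] at h
  have h2 := jets_indep hchi _ h
  ext i
  rw [coeff_zero]
  by_cases hi : i < m
  · have h3 := h2 (2 * i + 1) (by omega)
    rwa [show (2 * i + 1) / 2 = i by omega, show (2 * i + 1) % 2 = 1 by omega,
      if_neg one_ne_zero] at h3
  · by_cases hi' : i = m
    · rw [hi', hU']
    · exact coeff_eq_zero_of_natDegree_lt (by omega)

theorem BP_natDegree (m : ℕ) (x : ℕ → ℝ) : (BP (2 * m + 1) x).natDegree ≤ m := by
  unfold BP
  refine natDegree_sum_le_of_forall_le _ _ fun j hj => ?_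
  refine (natDegree_C_mul_X_pow_le _ _).trans ?_
  have := mem_range.1 (mem_filter.1 hj).1
  omega

theorem AP_natDegree (m : ℕ) (x : ℕ → ℝ) : (AP (2 * m + 1) x).natDegree ≤ m := by
  unfold AP
  refine natDegree_sum_le_of_forall_le _ _ fun j hj => ?_
  refine (natDegree_C_mul_X_pow_le _ _).trans ?_
  have := mem_range.1 (mem_filter.1 hj).1
  omega

theorem BP_coeff (m : ℕ) (x : ℕ → ℝ) : (BP (2 * m + 1) x).coeff m = Chi (2 * m + 1) x := by
  unfold BP
  simp only [finsetSum_coeff, coeff_C_mul, coeff_X_pow]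
  rw [sum_eq_single (2 * m + 1)]
  · rw [ka_top, show (2 * m + 1) / 2 = m by omega, if_pos rfl, mul_one]
  · intro j hj hj'
    have h1 := mem_range.1 (mem_filter.1 hj).1
    have h2 := (mem_filter.1 hj).2
    rw [if_neg (by omega), mul_zero]
  · intro h
    exact absurd (mem_filter.2 ⟨mem_range.2 (by omega), by omega⟩) h

theorem AB_evalR (r : ℕ) (x : ℕ → ℝ) (y : ℝ) :
    Chi (r + 1) (Function.update x r y) * ∏ i ∈ range r, (y - x i) =
      (AP r x).eval (y ^ 3 - 3 * y) + (BP r x).eval (y ^ 3 - 3 * y) * y := by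
  rw [Chi_span]
  unfold AP BP
  rw [eval_finsetSum, eval_finsetSum, Finset.sum_mul,
    ← Finset.sum_filter_add_sum_filter_not (range (r + 1)) (fun j => j % 2 = 0)]
  congr 1
  · refine Finset.sum_congr rfl fun j hj => ?_
    rw [Finset.mem_filter] at hj
    rw [ph_eval, hj.2]
    simp
  · have h1 : (range (r + 1)).filter (fun j => ¬ j % 2 = 0) =
        (range (r + 1)).filter (fun j => j % 2 = 1) := by
      refine Finset.filter_congr fun j _ => ?_
      omega
    rw [h1]
    refine Finset.sum_congr rfl fun j hj => ?_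
    rw [Finset.mem_filter] at hj
    rw [ph_eval, hj.2]
    simp only [eval_mul, eval_C, eval_pow, eval_X, pow_one]
    ring

theorem AB_dvd (m : ℕ) (s : ℝ) : (X - C s) ^ (2 * m + 1) ∣
    (AP (2 * m + 1) (fun _ => s)).comp cX + (BP (2 * m + 1) (fun _ => s)).comp cX * X := by
  obtain ⟨P, -, hP⟩ := Chi_poly (K := ℝ) (r := 2 * m + 1 + 1) (i := 2 * m + 1) (by omega)
    (fun _ => s)
  refine ⟨P, ?_⟩
  refine funext fun y => ?_
  have h := AB_evalR (2 * m + 1) (fun _ => s) y
  rw [hP y, prod_const, card_range] at h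
  simp only [eval_add, eval_mul, eval_comp, eval_sub, eval_pow, eval_X, eval_C]
  rw [mul_comm _ (eval y P)]
  exact h.symm

/-- a monic module element vanishing of order `2 m + 1` at `s` is proportional to `AP + BP X` -/
theorem BP_of_module {m : ℕ} {s : ℝ} (hchi : Chi (2 * m + 1) (fun _ => s) ≠ 0) {B D : ℝ[X]}
    (hB : B.natDegree ≤ m) (hD : D.natDegree ≤ m) (hD1 : D.coeff m = 1)
    (h : (X - C s) ^ (2 * m + 1) ∣ D.comp cX * X - B.comp cX) :
    BP (2 * m + 1) (fun _ => s) = C (Chi (2 * m + 1) (fun _ => s)) * D := by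
  set χ := Chi (2 * m + 1) (fun _ => s) with hχ
  have h1 := AB_dvd m s
  have hA := AP_natDegree m (fun _ => s)
  have hBP := BP_natDegree m (fun _ => s)
  have hBc := BP_coeff m (fun _ => s)
  set A0 := AP (2 * m + 1) (fun _ => s)
  set B0 := BP (2 * m + 1) (fun _ => s)
  have h2 : (X - C s) ^ (2 * m + 1) ∣ (-(C χ * B + A0)).comp cX + (C χ * D - B0).comp cX * X := by
    have e : (-(C χ * B + A0)).comp cX + (C χ * D - B0).comp cX * X =
        C χ * (D.comp cX * X - B.comp cX) - (A0.comp cX + B0.comp cX * X) := by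
      simp only [neg_comp, add_comp, sub_comp, mul_comp, C_comp]
      ring
    rw [e]
    exact (Dvd.dvd.mul_left h _).sub h1
  have h3 := module_unique hchi (U := C χ * D - B0) (W := -(C χ * B + A0)) ?_ ?_ ?_ h2
  · exact (sub_eq_zero.mp h3).symm
  · exact (natDegree_sub_le _ _).trans (max_le ((natDegree_C_mul_le _ _).trans hD) hBP)
  · rw [coeff_sub, coeff_C_mul, hD1, hBc, mul_one, sub_self]
  · rw [natDegree_neg]
    exact (natDegree_add_le _ _).trans (max_le ((natDegree_C_mul_le _ _).trans hB) hA)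

end LCB
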