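import Pool.Agent.Helper25.LC.Ident

/-!
L-SHAPED CORRIDOR, module [B], part 3: `C(c) c' = N (X + 1)^(2m+2)` modulo `(X - 2)^(m+1)`.
-/

set_option autoImplicit false

namespace LCB
open Finset Polynomial LCor Filter Topology IP.Slit

/-- the limit polynomial `N_m` -/
noncomputable def NP (m : ℕ) (p : ℕ → ℝ) : ℝ[X] :=
  ∑ j ∈ range (m + 1), C (p j) * (X + C 2) ^ j * (X - C 2) ^ (m - j)

theorem NP_natDegree (m : ℕ) (p : ℕ → ℝ) : (NP m p).natDegree ≤ m := by
  unfold NP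
  refine natDegree_sum_le_of_forall_le _ _ fun j hj => ?_
  have hj' := mem_range.1 hj
  refine natDegree_mul_le.trans ?_
  have h1 : (C (p j) * (X + C 2) ^ j : ℝ[X]).natDegree ≤ j :=
    (natDegree_C_mul_le _ _).trans (natDegree_pow_le.trans (by simp))
  have h2 : ((X - C 2) ^ (m - j) : ℝ[X]).natDegree ≤ m - j :=
    natDegree_pow_le.trans (by simp)
  omega

theorem NP_coeff {m : ℕ} {p : ℕ → ℝ} (hp : IsLaw m p) : (NP m p).coeff m = 1 := by
  unfold NP
  rw [finsetSum_coeff, ← hp.sum]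
  refine sum_congr rfl fun j hj => ?_
  have hj' := mem_range.1 hj
  rw [mul_assoc, coeff_C_mul]
  have h1 : ((X + C 2) ^ j : ℝ[X]).Monic := (monic_X_add_C 2).pow j
  have h2 : ((X - C 2) ^ (m - j) : ℝ[X]).Monic := (monic_X_sub_C 2).pow (m - j)
  have h3 : ((X + C 2) ^ j * (X - C 2) ^ (m - j) : ℝ[X]).natDegree = m := by
    rw [h1.natDegree_mul h2, (monic_X_add_C 2).natDegree_pow, (monic_X_sub_C 2).natDegree_pow,
      natDegree_X_add_C, natDegree_X_sub_C]
    omega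
  have h4 := (h1.mul h2).coeff_natDegree
  rw [h3] at h4
  rw [h4, mul_one]

/-- the point and its partner -/
noncomputable def xt (t : ℝ) : ℝ := 2 * (3 - t ^ 2) / (3 + t ^ 2)
noncomputable def xp (t : ℝ) : ℝ := (t ^ 2 - 6 * t - 3) / (3 + t ^ 2)

theorem qpos (t : ℝ) : (3 + t ^ 2) ≠ 0 := by positivity

theorem xp_neg (t : ℝ) : xp (-t) = (t ^ 2 + 6 * t - 3) / (3 + t ^ 2) := by
  unfold xp
  congr 1
  · ring
  · ring

theorem cxp (t : ℝ) : xp t ^ 3 - 3 * xp t = xt t ^ 3 - 3 * xt t := by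
  have := qpos t
  unfold xp xt
  field_simp
  ring

theorem xt_neg (t : ℝ) : xt (-t) = xt t := by
  unfold xt
  congr 1
  · ring
  · ring

theorem xp_add (t : ℝ) : xp t + xp (-t) = -xt t := by
  have := qpos t
  rw [xp_neg]
  unfold xp xt
  field_simp
  ring

theorem xp_sub (t : ℝ) : xp t - xp (-t) = -12 * t / (3 + t ^ 2) := by
  have := qpos t
  rw [xp_neg]
  unfold xp
  field_simp
  ring

theorem xp_sq (t : ℝ) : xp t ^ 2 + xp (-t) ^ 2 = 6 - xt t ^ 2 := by
  have := qpos t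
  rw [xp_neg]
  unfold xp xt
  field_simp
  ring

theorem NP_xp (m : ℕ) (p : ℕ → ℝ) {t : ℝ} (ht : 3 + t ≠ 0) :
    (NP m p).eval (xp t) = (-1) ^ m * (3 + t) ^ (2 * m + 2) / (3 + t ^ 2) ^ m * V0 m p t := by
  have hq := qpos t
  have h1 : xp t - 2 = -(3 + t) ^ 2 / (3 + t ^ 2) := by
    unfold xp
    field_simp
    ring
  have h2 : xp t + 2 = (xp t - 2) * uu t := by
    rw [h1]
    unfold xp uu
    field_simp
    ring
  unfold NP V0 Ph
  simp only [eval_finsetSum, eval_mul, eval_C, eval_pow, eval_add, eval_sub, eval_X]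
  rw [h2, mul_div_assoc', mul_sum, sum_div]
  refine sum_congr rfl fun j hj => ?_
  have hj' := mem_range.1 hj
  obtain ⟨k, hk⟩ : ∃ k, m = j + k := ⟨m - j, by omega⟩
  rw [show m - j = k by omega, mul_pow, h1, hk]
  have e1 : (-(3 + t) ^ 2 / (3 + t ^ 2)) ^ j = (-1) ^ j * (3 + t) ^ (2 * j) / (3 + t ^ 2) ^ j := by
    rw [div_pow, neg_pow, ← pow_mul]
  have e2 : (-(3 + t) ^ 2 / (3 + t ^ 2)) ^ k = (-1) ^ k * (3 + t) ^ (2 * k) / (3 + t ^ 2) ^ k := by
    rw [div_pow, neg_pow, ← pow_mul]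
  rw [e1, e2]
  field_simp
  ring

/-- divisibility from the order of vanishing along the parametrisation -/
theorem dvd_of_order {P : ℝ[X]} {n : ℕ} {h : ℝ → ℝ} (hh : ContinuousAt h 0)
    (hP : ∀ᶠ t in 𝓝 (0 : ℝ), t ≠ 0 → P.eval (xt t) = t ^ (2 * n) * h t) :
    (X - C 2) ^ n ∣ P := by
  by_cases hP0 : P = 0
  · rw [hP0]; exact dvd_zero _
  set s := P.rootMultiplicity 2 with hs
  obtain ⟨Q, hQ⟩ := P.pow_rootMultiplicity_dvd 2
  rw [← hs] at hQ
  have hQ2 : Q.eval 2 ≠ 0 := by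
    intro h0
    have h1 : (X - C 2) ∣ Q := dvd_iff_isRoot.mpr h0
    obtain ⟨R, hR⟩ := h1
    have h2 : (X - C 2) ^ (s + 1) ∣ P := ⟨R, by rw [hQ, hR, pow_succ]; ring⟩
    have h3 := (le_rootMultiplicity_iff hP0).mpr h2
    omega
  by_cases hsn : n ≤ s
  · exact (pow_dvd_pow _ hsn).trans ⟨Q, hQ⟩
  exfalso
  push Not at hsn
  have hx2 : ∀ t, xt t - 2 = -4 / (3 + t ^ 2) * t ^ 2 := by
    intro t
    have := qpos t
    unfold xt
    field_simp
    ring
  set G : ℝ → ℝ := fun t => (-4 / (3 + t ^ 2)) ^ s * Q.eval (xt t) - t ^ (2 * (n - s)) * h t with hG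
  have hxc : ContinuousAt xt 0 := by
    unfold xt
    exact (by fun_prop : ContinuousAt (fun t : ℝ => 2 * (3 - t ^ 2)) 0).div
      (by fun_prop) (by norm_num)
  have hGc : ContinuousAt G 0 := by
    have h1 : ContinuousAt (fun t : ℝ => (-4 / (3 + t ^ 2)) ^ s) 0 :=
      (continuousAt_const.div (by fun_prop) (by norm_num)).pow s
    have h2 : ContinuousAt (fun t : ℝ => Q.eval (xt t)) 0 := Q.continuous.continuousAt.comp hxc
    exact (h1.mul h2).sub ((by fun_prop : ContinuousAt (fun t : ℝ => t ^ (2 * (n - s))) 0).mul hh)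
  have hG0 : ∀ᶠ t in 𝓝[≠] (0 : ℝ), G t = 0 := by
    rw [eventually_nhdsWithin_iff]
    filter_upwards [hP] with t ht ht0
    have h1 := ht ht0
    rw [hQ, eval_mul, eval_pow, eval_sub, eval_X, eval_C, hx2, mul_pow, ← pow_mul] at h1
    have h2 : t ^ (2 * s) * G t = 0 := by
      rw [hG]
      simp only
      have e : t ^ (2 * n) = t ^ (2 * s) * t ^ (2 * (n - s)) := by
        rw [← pow_add]; congr 1; omega
      rw [e] at h1
      linear_combination h1
    exact (mul_eq_zero.mp h2).resolve_left (pow_ne_zero _ ht0)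
  have hzero : G 0 = 0 := tendsto_nhds_unique (hGc.tendsto.mono_left nhdsWithin_le_nhds)
    (tendsto_const_nhds.congr' (hG0.mono fun t ht => ht.symm))
  have hval : G 0 = (-4 / 3) ^ s * Q.eval 2 := by
    rw [hG]
    simp only
    have e1 : xt 0 = 2 := by unfold xt; norm_num
    have e2 : (0 : ℝ) ^ (2 * (n - s)) = 0 := zero_pow (by omega)
    rw [e1, e2]
    norm_num
  rw [hval] at hzero
  rcases mul_eq_zero.mp hzero with h1 | h1
  · exact pow_ne_zero s (by norm_num) h1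
  · exact hQ2 h1

/-- the module element and the congruence at `2` -/
theorem ident_two {m : ℕ} {p : ℕ → ℝ} (hp : IsLaw m p) :
    ∃ B D : ℝ[X], B.natDegree ≤ m ∧ D.natDegree ≤ m ∧ D.coeff m = 1 ∧
      (X - C 2) ^ (2 * m + 1) ∣ D.comp cX * X - B.comp cX ∧
      (X - C 2) ^ (m + 1) ∣ D.comp cX * (C 3 * X ^ 2 - C 3) - NP m p * (X + 1) ^ (2 * m + 2) := by
  have hX1 : ((X + 1) ^ (2 * m + 2) : ℝ[X]).natDegree = 2 * m + 2 := by
    have : (X + 1 : ℝ[X]) = X + C 1 := by simp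
    rw [this, (monic_X_add_C 1).natDegree_pow, natDegree_X_add_C, mul_one]
  obtain ⟨A, B, D, hA, hB, hD, hS, hc⟩ := decomp3 m (NP m p * (X + 1) ^ (2 * m + 2)) (by
    refine natDegree_mul_le.trans ?_
    rw [hX1]
    have := NP_natDegree m p
    omega)
  have hc0 : ((X + 1) ^ (2 * m + 2) : ℝ[X]).coeff (2 * m + 2) = 1 := by
    have h1 : ((X + 1) ^ (2 * m + 2) : ℝ[X]).Monic := by
      have : (X + 1 : ℝ[X]) = X + C 1 := by simp
      rw [this]
      exact (monic_X_add_C 1).pow _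
    have h2 := h1.coeff_natDegree
    rw [hX1] at h2
    exact h2
  have hc1 : (NP m p * (X + 1) ^ (2 * m + 2)).coeff (3 * m + 2) = 1 := by
    rw [show 3 * m + 2 = m + (2 * m + 2) by ring,
      coeff_mul_add_eq_of_natDegree_le (NP_natDegree m p) hX1.le, NP_coeff hp, one_mul, hc0]
  rw [hc1] at hc
  set S := NP m p * (X + 1) ^ (2 * m + 2) with hSdef
  -- values on the partners
  set κ : ℝ → ℝ := fun t => (-1) ^ m * 2 ^ (2 * m + 2) * (9 - t ^ 2) ^ (2 * m + 2) /
    (3 + t ^ 2) ^ (3 * m + 2) with hκ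
  have hSp : ∀ t : ℝ, 3 + t ≠ 0 → S.eval (xp t) = κ t * t ^ (2 * m + 2) * V0 m p t := by
    intro t ht
    have hq := qpos t
    have h1 : xp t + 1 = 2 * t * (t - 3) / (3 + t ^ 2) := by
      unfold xp
      field_simp
      ring
    rw [hSdef, eval_mul, eval_pow, eval_add, eval_X, eval_one, NP_xp m p ht, h1, hκ]
    simp only
    have e1 : (2 * t * (t - 3) / (3 + t ^ 2)) ^ (2 * m + 2) =
        2 ^ (2 * m + 2) * t ^ (2 * m + 2) * (3 - t) ^ (2 * m + 2) / (3 + t ^ 2) ^ (2 * m + 2) := by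
      rw [div_pow, mul_pow, mul_pow]
      congr 2
      rw [show t - 3 = -(3 - t) by ring]
      exact Even.neg_pow ⟨m + 1, by ring⟩ _
    have e2 : (9 - t ^ 2 : ℝ) ^ (2 * m + 2) = (3 - t) ^ (2 * m + 2) * (3 + t) ^ (2 * m + 2) := by
      rw [← mul_pow]; congr 1; ring
    have e3 : (3 + t ^ 2 : ℝ) ^ (3 * m + 2) = (3 + t ^ 2) ^ m * (3 + t ^ 2) ^ (2 * m + 2) := by
      rw [← pow_add]; congr 1; ring
    rw [e1, e2, e3]
    field_simp
  have hκneg : ∀ t, κ (-t) = κ t := by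
    intro t
    rw [hκ]
    simp only [neg_sq]
  have hval : ∀ x y : ℝ, y ^ 3 - 3 * y = x ^ 3 - 3 * x → S.eval y =
      A.eval (x ^ 3 - 3 * x) + B.eval (x ^ 3 - 3 * x) * y + D.eval (x ^ 3 - 3 * x) * y ^ 2 := by
    intro x y hxy
    rw [hS]
    simp only [eval_add, eval_mul, eval_comp, eval_sub, eval_pow, eval_X, eval_C, hxy]
  have hpow : ∀ t : ℝ, (-t) ^ (2 * m + 2) = t ^ (2 * m + 2) := fun t =>
    Even.neg_pow ⟨m + 1, by ring⟩ _
  have hne1 : ∀ᶠ t in 𝓝 (0 : ℝ), 3 + t ≠ 0 :=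
    (continuousAt_const.add continuousAt_id).eventually_ne (by norm_num)
  have hne2 : ∀ᶠ t in 𝓝 (0 : ℝ), 3 + -t ≠ 0 :=
    (continuousAt_const.add continuousAt_id.neg).eventually_ne (by norm_num)
  have hκc : ContinuousAt κ 0 := by
    rw [hκ]
    exact (by fun_prop : ContinuousAt (fun t : ℝ => (-1) ^ m * 2 ^ (2 * m + 2) *
      (9 - t ^ 2) ^ (2 * m + 2)) 0).div (by fun_prop) (by norm_num)
  -- the module element
  obtain ⟨g, hg, hgy⟩ := yy_order hp
  have hF : (X - C 2) ^ (2 * m + 1) ∣ D.comp cX * X - B.comp cX := by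
    refine dvd_of_order (h := fun t => (3 + t ^ 2) * κ t / 12 * g t) ?_ ?_
    · exact (((by fun_prop : ContinuousAt (fun t : ℝ => 3 + t ^ 2) 0).mul hκc).div_const 12).mul
        hg.continuousAt
    · filter_upwards [hne1, hne2, hgy] with t h1 h2 h3 ht
      have e1 := hval (xt t) (xp t) (cxp t)
      have e2 := hval (xt t) (xp (-t)) (by rw [cxp, xt_neg])
      rw [hSp t h1] at e1
      rw [hSp (-t) h2, hκneg, hpow] at e2
      have e3 := xp_add t
      have e4 := xp_sub t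
      simp only [eval_sub, eval_mul, eval_comp, eval_pow, eval_X, eval_C]
      set a := A.eval (xt t ^ 3 - 3 * xt t)
      set b := B.eval (xt t ^ 3 - 3 * xt t)
      set d := D.eval (xt t ^ 3 - 3 * xt t)
      have hq := qpos t
      have e5 : κ t * t ^ (2 * m + 2) * yy m p t = (xp t - xp (-t)) * (b - xt t * d) := by
        unfold yy
        have : xt t = -(xp t + xp (-t)) := by rw [e3]; ring
        rw [this]
        linear_combination e1 - e2
      rw [e4, h3] at e5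
      have e6 : t * ((d * xt t - b) * 12) = t * (t ^ (2 * (2 * m + 1)) * ((3 + t ^ 2) * κ t * g t)) := by
        have e7 : t * t ^ (2 * (2 * m + 1)) = t ^ (2 * m + 2) * t ^ (2 * m + 1) := by
          rw [← pow_succ', ← pow_add]; congr 1; ring
        field_simp at e5
        linear_combination (-1 : ℝ) * e5 - (3 + t ^ 2) * κ t * g t * e7
      have e8 := mul_left_cancel₀ ht e6
      linear_combination e8 / 12
  refine ⟨B, D, hB, hD, hc, hF, ?_⟩
  -- the sum
  have hT : (X - C 2) ^ (m + 1) ∣ C 2 * A.comp cX - X * B.comp cX + (C 6 - X ^ 2) * D.comp cX := by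
    refine dvd_of_order (h := fun t => κ t * (V0 m p t + V0 m p (-t))) ?_ ?_
    · have h1 := (V0_analytic m p).continuousAt
      have h2 : ContinuousAt (fun t : ℝ => V0 m p (-t)) 0 :=
        ContinuousAt.comp_of_eq h1 (by fun_prop : ContinuousAt (fun t : ℝ => -t) 0) neg_zero
      exact hκc.mul (h1.add h2)
    · filter_upwards [hne1, hne2] with t h1 h2 ht
      have e1 := hval (xt t) (xp t) (cxp t)
      have e2 := hval (xt t) (xp (-t)) (by rw [cxp, xt_neg])
      rw [hSp t h1] at e1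
      rw [hSp (-t) h2, hκneg, hpow] at e2
      have e3 := xp_add t
      have e4 := xp_sq t
      simp only [eval_add, eval_sub, eval_mul, eval_comp, eval_pow, eval_X, eval_C]
      rw [show 2 * (m + 1) = 2 * m + 2 by ring]
      set a := A.eval (xt t ^ 3 - 3 * xt t)
      set b := B.eval (xt t ^ 3 - 3 * xt t)
      set d := D.eval (xt t ^ 3 - 3 * xt t)
      linear_combination -e1 - e2 - b * e3 - d * e4
  have h2 : (X - C 2) ^ (m + 1) ∣ C (2 : ℝ) * (D.comp cX * (C 3 * X ^ 2 - C 3) - S) := by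
    have e : C (2 : ℝ) * (D.comp cX * (C 3 * X ^ 2 - C 3) - S) =
        C 3 * X * (D.comp cX * X - B.comp cX) -
          (C 2 * A.comp cX - X * B.comp cX + (C 6 - X ^ 2) * D.comp cX) := by
      rw [hS]
      have c2 : (C 2 : ℝ[X]) = 2 := rfl
      have c3 : (C 3 : ℝ[X]) = 3 := rfl
      have c6 : (C 6 : ℝ[X]) = 6 := rfl
      rw [c2, c3, c6]
      ring
    rw [e]
    exact (Dvd.dvd.mul_left ((pow_dvd_pow _ (by omega)).trans hF) _).sub hT
  have h3 : IsUnit (C (2 : ℝ)) := isUnit_C.mpr (by norm_num)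
  exact (h3.dvd_mul_left).mp h2

end LCB
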