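import Pool.Agent.Helper25.LC.Res
import Pool.Agent.Helper25.LC.Contour

/-!
L-SHAPED CORRIDOR, module [B], part 6: the kernel, its residues, its limit.
-/

set_option autoImplicit false

namespace LCB
open Finset Polynomial LCor Filter Topology IP.Slit LCA Metric

/-- the polynomial `BP` at a complex point -/
noncomputable def HK (m : ℕ) (x : ℕ → ℝ) (w : ℂ) : ℂ :=
  ∑ j ∈ (range (2 * m + 1 + 1)).filter (fun j => j % 2 = 1), ((ka (2 * m + 1) x j : ℝ) : ℂ) * w ^ (j / 2)

/-- the numerator of the kernel -/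
noncomputable def NK (m : ℕ) (x : ℕ → ℝ) (z : ℂ) : ℂ :=
  HK m x (z ^ 3 - 3 * z) * (3 * z ^ 2 - 3) /
    (((Chi (2 * m + 1) x : ℝ) : ℂ) * (qq z (x (2 * m) : ℂ) * ∏ i ∈ range m, qq z (x i : ℂ)))

/-- the kernel -/
noncomputable def KN (m : ℕ) (x : ℕ → ℝ) (z : ℂ) : ℂ :=
  NK m x z / ∏ i ∈ range m, (z - (x i : ℂ))

theorem HK_eq (m : ℕ) (x : ℕ → ℝ) (w : ℂ) :
    HK m x w = ((BP (2 * m + 1) x).map Complex.ofRealHom).eval w := by
  unfold HK BP
  rw [Polynomial.map_sum, eval_finsetSum]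
  refine sum_congr rfl fun j _ => ?_
  rw [Polynomial.map_mul, map_C, Polynomial.map_pow, map_X, eval_mul, eval_C, eval_pow, eval_X]
  rfl

theorem HK_real (m : ℕ) (x : ℕ → ℝ) (w : ℝ) :
    HK m x (w : ℂ) = (((BP (2 * m + 1) x).eval w : ℝ) : ℂ) := by
  rw [HK_eq, show (w : ℂ) = Complex.ofRealHom w from rfl, eval_map_apply]
  rfl

theorem qq_ne {z w : ℂ} (hz : ‖z - 2‖ ≤ 1 / 2) (hw : ‖w - 2‖ ≤ 1 / 2) : qq z w ≠ 0 := by
  intro h
  set s := z - 2 with hs
  set t := w - 2 with ht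
  have h1 : (9 : ℂ) = -(6 * s + 6 * t + (s ^ 2 + s * t + t ^ 2)) := by
    unfold qq at h
    rw [hs, ht]
    linear_combination h
  have h2 : ‖(9 : ℂ)‖ ≤ 6 * ‖s‖ + 6 * ‖t‖ + (‖s‖ ^ 2 + ‖s‖ * ‖t‖ + ‖t‖ ^ 2) := by
    rw [h1, norm_neg]
    refine (norm_add_le _ _).trans (add_le_add ?_ ?_)
    · refine (norm_add_le _ _).trans (add_le_add ?_ ?_)
      · rw [norm_mul]; norm_num
      · rw [norm_mul]; norm_num
    · refine (norm_add_le _ _).trans (add_le_add ?_ ?_)
      · refine (norm_add_le _ _).trans (add_le_add ?_ ?_)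
        · rw [norm_pow]
        · rw [norm_mul]
      · rw [norm_pow]
  have h3 : ‖(9 : ℂ)‖ = 9 := by norm_num
  rw [h3] at h2
  have h4 := norm_nonneg s
  have h5 := norm_nonneg t
  nlinarith

theorem real_near {x : ℝ} (hx : |x - 2| < 1 / 2) : ‖(x : ℂ) - 2‖ ≤ 1 / 2 := by
  have : (x : ℂ) - 2 = ((x - 2 : ℝ) : ℂ) := by push_cast; ring
  rw [this, Complex.norm_real, Real.norm_eq_abs]
  exact hx.le

theorem HK_diff (m : ℕ) (x : ℕ → ℝ) : Differentiable ℂ (HK m x) := by
  have : HK m x = fun w => ((BP (2 * m + 1) x).map Complex.ofRealHom).eval w := by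
    funext w; exact HK_eq m x w
  rw [this]
  exact Polynomial.differentiable _

theorem qq_diff (w : ℂ) : Differentiable ℂ (fun z : ℂ => qq z w) := by
  unfold qq
  fun_prop

theorem NK_diff {m : ℕ} {x : ℕ → ℝ} (hχ : Chi (2 * m + 1) x ≠ 0) (hx : ∀ i, |x i - 2| < 1 / 2) :
    DifferentiableOn ℂ (NK m x) (closedBall 2 (1 / 2)) := by
  intro z hz
  rw [mem_closedBall, dist_eq_norm] at hz
  unfold NK
  refine DifferentiableAt.differentiableWithinAt (DifferentiableAt.div ?_ ?_ ?_)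
  · exact DifferentiableAt.mul ((HK_diff m x).differentiableAt.comp z (by fun_prop)) (by fun_prop)
  · refine DifferentiableAt.mul (differentiableAt_const _) (DifferentiableAt.mul (qq_diff _).differentiableAt ?_)
    exact DifferentiableAt.fun_finsetProd fun i _ => (qq_diff _).differentiableAt
  · refine mul_ne_zero (by exact_mod_cast hχ) (mul_ne_zero (qq_ne hz (real_near (hx _))) ?_)
    exact prod_ne_zero_iff.mpr fun i _ => qq_ne hz (real_near (hx _))

/-- the residues of the kernel -/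
theorem KN_res {m : ℕ} {y : ℕ → ℝ} {B : Finset ℝ} {v : ℝ} (hy : B.val = (Multiset.range m).map y)
    (hχ : Chi (2 * m + 1) (xs m y v) ≠ 0) (hx : ∀ i, |xs m y v i - 2| < 1 / 2) {h : ℂ → ℂ}
    (hh : DifferentiableOn ℂ h (closedBall 2 (1 / 2))) :
    (∮ z in C(2, 1 / 2), KN m (xs m y v) z * h z) =
      2 * Real.pi * Complex.I * ∑ b ∈ B, ((al B v b / nu B v : ℝ) : ℂ) * h b := by
  have hX := xs_range v hy
  have hprod : ∀ f : ℝ → ℂ, ∏ i ∈ range m, f (xs m y v i) = ∏ b ∈ B, f b := by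
    intro f
    have h1 : ∏ b ∈ B, f b = (B.val.map f).prod := rfl
    rw [h1, hy, Multiset.map_map]
    change _ = ∏ i ∈ range m, (f ∘ y) i
    refine prod_congr rfl fun i hi => ?_
    unfold xs
    rw [if_pos (mem_range.mp hi)]
    rfl
  have hv : xs m y v (2 * m) = v := by
    unfold xs
    rw [if_neg (by omega), if_neg (by omega)]
  have hBn : ∀ b ∈ B, |b - 2| < 1 / 2 := by
    intro b hb
    have h1 : b ∈ (Multiset.range (2 * m + 1)).map (xs m y v) := by
      rw [hX, Multiset.mem_add, Multiset.mem_add]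
      exact Or.inl (Or.inl hb)
    obtain ⟨i, -, rfl⟩ := Multiset.mem_map.mp h1
    exact hx i
  have hinj : Set.InjOn (fun b : ℝ => (b : ℂ)) B := fun a _ b _ hab => Complex.ofReal_injective hab
  have hball : ∀ b ∈ B, ((b : ℝ) : ℂ) ∈ ball (2 : ℂ) (1 / 2) := by
    intro b hb
    rw [mem_ball, dist_eq_norm]
    have : (b : ℂ) - 2 = ((b - 2 : ℝ) : ℂ) := by push_cast; ring
    rw [this, Complex.norm_real, Real.norm_eq_abs]
    exact hBn b hb
  have h1 := circle_res hinj (by norm_num : (0 : ℝ) < 1 / 2) hball ((NK_diff hχ hx).mul hh)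
  have h2 : (∮ z in C(2, 1 / 2), KN m (xs m y v) z * h z) =
      ∮ z in C(2, 1 / 2), (NK m (xs m y v) * h) z / ∏ b ∈ B, (z - (b : ℂ)) := by
    refine circleIntegral.integral_congr (by norm_num) fun z _ => ?_
    change NK m (xs m y v) z / (∏ i ∈ range m, (z - (xs m y v i : ℂ))) * h z =
      NK m (xs m y v) z * h z / _
    rw [hprod (fun b => z - (b : ℂ))]
    ring
  rw [h2, h1]
  congr 1
  refine sum_congr rfl fun b hb => ?_
  change NK m (xs m y v) b * h b / _ = _
  have h3 : NK m (xs m y v) b / ∏ i ∈ B.erase b, ((b : ℂ) - (i : ℂ)) = ((al B v b / nu B v : ℝ) : ℂ) := by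
    have h4 := al_eq hX hb
    have h5 : ∏ i ∈ B.erase b, (b - i) ≠ 0 :=
      prod_ne_zero_iff.mpr fun i hi => sub_ne_zero.mpr (Finset.ne_of_mem_erase hi).symm
    have hqC : ∀ i : ℝ, qq (b : ℂ) (i : ℂ) = ((qq b i : ℝ) : ℂ) := by
      intro i
      unfold qq
      push_cast
      ring
    have h6 : ∀ i : ℝ, |i - 2| < 1 / 2 → qq b i ≠ 0 := by
      intro i hi h0
      have h7 := qq_ne (real_near (hBn b hb)) (real_near hi)
      rw [hqC, h0] at h7
      exact h7 rfl
    have h7 : qq b v ≠ 0 := h6 v (hv ▸ hx (2 * m))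
    have h8 : ∏ i ∈ B, qq b i ≠ 0 := prod_ne_zero_iff.mpr fun i hi => h6 i (hBn i hi)
    have h9 : NK m (xs m y v) b = (((BP (2 * m + 1) (xs m y v)).eval (b ^ 3 - 3 * b) * (3 * b ^ 2 - 3) /
        (Chi (2 * m + 1) (xs m y v) * (qq b v * ∏ i ∈ B, qq b i)) : ℝ) : ℂ) := by
      unfold NK
      rw [show (b : ℂ) ^ 3 - 3 * b = ((b ^ 3 - 3 * b : ℝ) : ℂ) by push_cast; ring, HK_real, hv,
        hprod (fun i => qq (b : ℂ) (i : ℂ))]
      simp only [hqC]
      push_cast
      ring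
    rw [h9]
    have h10 : ∏ i ∈ B.erase b, ((b : ℂ) - (i : ℂ)) = ((∏ i ∈ B.erase b, (b - i) : ℝ) : ℂ) := by
      push_cast
      rfl
    rw [h10, ← Complex.ofReal_div, nu_eq hX]
    congr 1
    rw [div_div, div_eq_div_iff (mul_ne_zero (mul_ne_zero hχ (mul_ne_zero h7 h8)) h5) hχ]
    linear_combination (-Chi (2 * m + 1) (xs m y v)) * h4
  rw [← h3]
  ring

/-- continuity of the kernel at the homogeneous point -/
theorem KN_cont (m : ℕ) {z : ℂ} (hz : z ∈ sphere (2 : ℂ) (1 / 2)) :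
    ContinuousAt (fun p : (ℕ → ℝ) × ℂ => KN m p.1 p.2) (fun _ => 2, z) := by
  have hz1 : ‖z - 2‖ ≤ 1 / 2 := by
    rw [← dist_eq_norm]; exact (mem_sphere.mp hz).le
  have hz2 : z - 2 ≠ 0 := sph_ne (by norm_num) hz
  have h22 : ‖((2 : ℝ) : ℂ) - 2‖ ≤ 1 / 2 := by norm_num
  have hq : ∀ i : ℕ, Continuous (fun p : (ℕ → ℝ) × ℂ => qq p.2 (p.1 i : ℂ)) := by
    intro i
    unfold qq
    fun_prop
  have hχ : ((Chi (2 * m + 1) (fun _ => (2 : ℝ)) : ℝ) : ℂ) ≠ 0 := by
    exact_mod_cast (Chi_two_pos (2 * m + 1)).ne'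
  unfold KN NK
  refine ContinuousAt.div (ContinuousAt.div ?_ ?_ ?_) ?_ ?_
  · refine ContinuousAt.mul ?_ (by fun_prop)
    unfold HK
    refine Continuous.continuousAt (continuous_finsetSum _ fun j _ => ?_)
    refine Continuous.mul ?_ (by fun_prop)
    exact Complex.continuous_ofReal.comp ((ka_continuous_real _ _).comp continuous_fst)
  · refine Continuous.continuousAt (Continuous.mul ?_ ((hq _).mul ?_))
    · exact Complex.continuous_ofReal.comp ((Chi_continuous_real _).comp continuous_fst)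
    · exact continuous_finsetProd _ fun i _ => hq i
  · exact mul_ne_zero hχ (mul_ne_zero (qq_ne hz1 h22) (prod_ne_zero_iff.mpr fun i _ => qq_ne hz1 h22))
  · refine Continuous.continuousAt (continuous_finsetProd _ fun i _ => by fun_prop)
  · refine prod_ne_zero_iff.mpr fun i _ => ?_
    simpa using hz2

theorem KN_contOn {m : ℕ} {x : ℕ → ℝ} (hχ : Chi (2 * m + 1) x ≠ 0) (hx : ∀ i, |x i - 2| < 1 / 2) :
    ContinuousOn (KN m x) (sphere 2 (1 / 2)) := by
  unfold KN
  refine ContinuousOn.div ((NK_diff hχ hx).continuousOn.mono sphere_subset_closedBall)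
    (Continuous.continuousOn (continuous_finsetProd _ fun i _ => by fun_prop)) ?_
  intro z hz
  refine prod_ne_zero_iff.mpr fun i _ h0 => ?_
  rw [sub_eq_zero] at h0
  rw [mem_sphere, dist_eq_norm, h0] at hz
  have : (x i : ℂ) - 2 = ((x i - 2 : ℝ) : ℂ) := by push_cast; ring
  rw [this, Complex.norm_real, Real.norm_eq_abs] at hz
  exact absurd hz (hx i).ne

/-- the limit kernel -/
theorem KN_two {m : ℕ} {p : ℕ → ℝ} (hp : IsLaw m p) : ∃ H : ℂ → ℂ,
    DifferentiableOn ℂ H (closedBall 2 (1 / 2)) ∧ ∀ z ∈ sphere (2 : ℂ) (1 / 2),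
      KN m (fun _ => 2) z = (∑ j ∈ range (m + 1), (p j : ℂ) * uc z ^ j) + H z := by
  obtain ⟨B, D, hB, hD, hD1, hmod, Q, hQ⟩ := ident_two hp
  have hχ := (Chi_two_pos (2 * m + 1)).ne'
  have hBP := BP_of_module hχ hB hD hD1 hmod
  have hz1 : ∀ z ∈ closedBall (2 : ℂ) (1 / 2), z + 1 ≠ 0 := by
    intro z hz h
    rw [mem_closedBall, dist_eq_norm] at hz
    have : z - 2 = -3 := by linear_combination h
    rw [this] at hz
    norm_num at hz
  refine ⟨fun z => (z - 2) * (Q.map Complex.ofRealHom).eval z / (z + 1) ^ (2 * m + 2), ?_, ?_⟩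
  · intro z hz
    refine DifferentiableAt.differentiableWithinAt (DifferentiableAt.div ?_ (by fun_prop)
      (pow_ne_zero _ (hz1 z hz)))
    exact DifferentiableAt.mul (by fun_prop) (Polynomial.differentiable _).differentiableAt
  · intro z hz
    have hz2 : z - 2 ≠ 0 := sph_ne (by norm_num) hz
    have hz3 := hz1 z (sphere_subset_closedBall hz)
    have hχC : ((Chi (2 * m + 1) (fun _ => (2 : ℝ)) : ℝ) : ℂ) ≠ 0 := by exact_mod_cast hχ
    have e1 : HK m (fun _ => 2) (z ^ 3 - 3 * z) =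
        ((Chi (2 * m + 1) (fun _ => (2 : ℝ)) : ℝ) : ℂ) *
          (D.map Complex.ofRealHom).eval (z ^ 3 - 3 * z) := by
      rw [HK_eq, hBP, Polynomial.map_mul, map_C, eval_mul, eval_C]
      rfl
    have e2 : (D.map Complex.ofRealHom).eval (z ^ 3 - 3 * z) * (3 * z ^ 2 - 3) =
        ((NP m p).map Complex.ofRealHom).eval z * (z + 1) ^ (2 * m + 2) +
          (z - 2) ^ (m + 1) * (Q.map Complex.ofRealHom).eval z := by
      have h1 := congrArg (fun P : ℝ[X] => (P.map Complex.ofRealHom).eval z) hQ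
      simp only [Polynomial.map_sub, Polynomial.map_mul, Polynomial.map_comp, Polynomial.map_pow,
        Polynomial.map_add, Polynomial.map_one, map_X, map_C, eval_sub, eval_mul, eval_comp,
        eval_pow, eval_add, eval_X, eval_C, eval_one] at h1
      have h3 : (Complex.ofRealHom (3 : ℝ) : ℂ) = 3 := by simp
      have h2 : (Complex.ofRealHom (2 : ℝ) : ℂ) = 2 := by simp
      rw [h3, h2] at h1
      linear_combination h1
    have e3 : ((NP m p).map Complex.ofRealHom).eval z =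
        (z - 2) ^ m * ∑ j ∈ range (m + 1), (p j : ℂ) * uc z ^ j := by
      unfold NP
      rw [Polynomial.map_sum, eval_finsetSum, mul_sum]
      refine sum_congr rfl fun j hj => ?_
      have hj' := mem_range.1 hj
      simp only [Polynomial.map_mul, Polynomial.map_pow, Polynomial.map_add, Polynomial.map_sub,
        map_X, map_C, eval_mul, eval_pow, eval_add, eval_sub, eval_X, eval_C]
      have h2 : (Complex.ofRealHom (2 : ℝ) : ℂ) = 2 := by simp
      have h5 : (Complex.ofRealHom (p j) : ℂ) = (p j : ℂ) := rfl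
      rw [h2, h5]
      unfold uc
      obtain ⟨k, hk⟩ : ∃ k, m = j + k := ⟨m - j, by omega⟩
      rw [show m - j = k by omega, hk, div_pow, pow_add]
      field_simp
    have e4 : qq z ((2 : ℝ) : ℂ) = (z + 1) ^ 2 := by
      unfold qq
      push_cast
      ring
    unfold KN NK
    rw [e1]
    simp only [prod_const, card_range, e4]
    rw [← pow_succ', ← pow_mul]
    have e5 : ((Chi (2 * m + 1) (fun _ => (2 : ℝ)) : ℝ) : ℂ) *
        (D.map Complex.ofRealHom).eval (z ^ 3 - 3 * z) * (3 * z ^ 2 - 3) =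
        ((Chi (2 * m + 1) (fun _ => (2 : ℝ)) : ℝ) : ℂ) *
          ((z - 2) ^ m * (∑ j ∈ range (m + 1), (p j : ℂ) * uc z ^ j) * (z + 1) ^ (2 * m + 2) +
          (z - 2) ^ (m + 1) * (Q.map Complex.ofRealHom).eval z) := by
      rw [← e3]
      linear_combination ((Chi (2 * m + 1) (fun _ => (2 : ℝ)) : ℝ) : ℂ) * e2
    rw [e5]
    push_cast
    have h6 := pow_ne_zero (2 * m + 2) hz3
    have h7 := pow_ne_zero m hz2
    rw [show 2 * (m + 1) = 2 * m + 2 by ring, pow_succ (z - 2) m]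
    generalize (∑ j ∈ range (m + 1), (p j : ℂ) * uc z ^ j) = S
    generalize (Q.map Complex.ofRealHom).eval z = q
    generalize (z + 1) ^ (2 * m + 2) = T at *
    generalize (z - 2) ^ m = U at *
    field_simp

/-- integrals against the limit kernel -/
theorem KN_two_integral {m : ℕ} {p : ℕ → ℝ} (hp : IsLaw m p) {h : ℂ → ℂ}
    (hh : DifferentiableOn ℂ h (closedBall 2 (1 / 2))) :
    (∮ z in C(2, 1 / 2), KN m (fun _ => 2) z * h z) =
      ∑ j ∈ range (m + 1), (p j : ℂ) * ∮ z in C(2, 1 / 2), uc z ^ j * h z := by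
  obtain ⟨H, hH, hK⟩ := KN_two hp
  have hR : (0 : ℝ) < 1 / 2 := by norm_num
  have hc : ContinuousOn h (sphere 2 (1 / 2)) := hh.continuousOn.mono sphere_subset_closedBall
  have e1 : (∮ z in C(2, 1 / 2), KN m (fun _ => 2) z * h z) =
      ∮ z in C(2, 1 / 2), ((∑ j ∈ range (m + 1), (p j : ℂ) * (uc z ^ j * h z)) + (H * h) z) := by
    refine circleIntegral.integral_congr hR.le fun z hz => ?_
    change KN m (fun _ => 2) z * h z = (∑ j ∈ range (m + 1), (p j : ℂ) * (uc z ^ j * h z)) + H z * h z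
    rw [hK z hz, add_mul, sum_mul]
    congr 1
    refine sum_congr rfl fun j _ => ?_
    ring
  have hint : ∀ j, ContinuousOn (fun z => (p j : ℂ) * (uc z ^ j * h z)) (sphere 2 (1 / 2)) :=
    fun j => continuousOn_const.mul (((uc_cont hR).pow j).mul hc)
  rw [e1, circleIntegral.integral_add, circleIntegral.integral_fun_sum,
    ((hH.mul hh).mono closure_ball_subset_closedBall).diffContOnCl.circleIntegral_eq_zero hR.le, add_zero]
  · refine sum_congr rfl fun j _ => ?_
    rw [circleIntegral.integral_const_mul]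
  · intro j _
    exact (hint j).circleIntegrable hR.le
  · exact (continuousOn_finsetSum _ fun j _ => hint j).circleIntegrable hR.le
  · exact ((hH.continuousOn.mono sphere_subset_closedBall).mul hc).circleIntegrable hR.le

end LCB
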