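import Mathlib
import Pool.Agent.Helper45.LCor.Law

/-!
L-SHAPED CORRIDOR, module [B], part 1: the differential equation of the generating function of the
law `p_m`, and the order of vanishing of its antisymmetrisation.

Rational parametrisation: `x = 2 (3 - t^2) / (3 + t^2)`, partners `x^± = (t^2 ∓ 6 t - 3) / (t^2 + 3)`.
-/

set_option autoImplicit false

namespace LCB
open Finset Polynomial LCor Filter Topology

/-- generating polynomial of the law -/
noncomputable def Ph (m : ℕ) (p : ℕ → ℝ) : ℝ[X] := ∑ j ∈ range (m + 1), C (p j) * X ^ j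

theorem Ph_coeff {m : ℕ} {p : ℕ → ℝ} (hz : ∀ n, m < n → p n = 0) (n : ℕ) :
    (Ph m p).coeff n = p n := by
  unfold Ph
  simp only [finsetSum_coeff, coeff_C_mul, coeff_X_pow]
  by_cases h : n < m + 1
  · rw [sum_eq_single n]
    · simp
    · intro j _ hj
      rw [if_neg (Ne.symm hj), mul_zero]
    · intro h'
      exact absurd (mem_range.2 h) h'
  · rw [hz n (by omega)]
    refine sum_eq_zero fun j hj => ?_
    have := mem_range.1 hj
    rw [if_neg (by omega), mul_zero]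

/-- `L (L + 1)` with `L = 2 m + 1` -/
def LL (m : ℕ) : ℝ := (2 * m + 1) * (2 * m + 2)

/-- the constant of the differential equation -/
noncomputable def KK (m : ℕ) (p : ℕ → ℝ) : ℝ := (3 / 2 + 9 / 4 * LL m) * p 0 + 1 / 2 * p 1

/-- the differential equation in the variable `u` -/
theorem uode {m : ℕ} {p : ℕ → ℝ} (hp : IsLaw m p) :
    (C 3 * X + 1) ^ 2 * (X * derivative (derivative (Ph m p)) + C (1 / 2) * derivative (Ph m p)) +
      (C 3 * X + 1) * (C 6 * X * derivative (Ph m p) + C (3 / 2) * Ph m p) -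
        C (9 / 4 * LL m) * (X - 1) * Ph m p = C (KK m p) := by
  have hc := Ph_coeff hp.zero
  set f := Ph m p with hf
  have hrec : ∀ n : ℕ, 1 ≤ n → -(9 * ((m : ℝ) + 1 - n) * (2 * m + 2 * n + 1)) * p (n - 1) +
      (12 * (n : ℝ) ^ 2 + 6 * n + 3 + NN m) * p n + ((n : ℝ) + 1) * (2 * n + 1) * p (n + 1) = 0 := by
    intro n hn
    by_cases h : n ≤ m
    · have := hp.recu n hn h
      linarith
    · by_cases h2 : n = m + 1
      · rw [hp.zero n (by omega), hp.zero (n + 1) (by omega), h2]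
        push_cast
        ring
      · rw [hp.zero n (by omega), hp.zero (n + 1) (by omega), hp.zero (n - 1) (by omega)]
        ring
  have e : (C 3 * X + 1) ^ 2 * (X * derivative (derivative f) + C (1 / 2) * derivative f) +
      (C 3 * X + 1) * (C 6 * X * derivative f + C (3 / 2) * f) -
        C (9 / 4 * LL m) * (X - 1) * f =
      C 9 * (X * (X * (X * derivative (derivative f)))) + C 6 * (X * (X * derivative (derivative f))) +
        X * derivative (derivative f) + C (45 / 2) * (X * (X * derivative f)) +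
        C 9 * (X * derivative f) + C (1 / 2) * derivative f + C (9 / 2 - 9 / 4 * LL m) * (X * f) +
        C (3 / 2 + 9 / 4 * LL m) * f := by
    have c1 : (C 9 : ℝ[X]) = 9 := rfl
    have c2 : (C 6 : ℝ[X]) = 6 := rfl
    have c3 : (C 3 : ℝ[X]) = 3 := rfl
    have c4 : (C (3 / 2) : ℝ[X]) = C 3 * C (1 / 2) := by rw [← C_mul]; norm_num
    have c5 : (C (45 / 2) : ℝ[X]) = 45 * C (1 / 2) := by
      have : (45 : ℝ[X]) = C 45 := rfl
      rw [this, ← C_mul]; norm_num
    have c6 : (C (9 / 2 - 9 / 4 * LL m) : ℝ[X]) = 9 * C (1 / 2) - C (9 / 4 * LL m) := by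
      have : (9 : ℝ[X]) = C 9 := rfl
      rw [this, ← C_mul, ← C_sub]; norm_num
    have c7 : (C (3 / 2 + 9 / 4 * LL m) : ℝ[X]) = 3 * C (1 / 2) + C (9 / 4 * LL m) := by
      have : (3 : ℝ[X]) = C 3 := rfl
      rw [this, ← C_mul, ← C_add]; norm_num
    have c8 : (2 : ℝ[X]) * C (1 / 2) = 1 := by
      have : (2 : ℝ[X]) = C 2 := rfl
      rw [this, ← C_mul]; norm_num
    rw [c4, c5, c6, c7, c1, c2, c3]
    linear_combination (-18 * X * X * derivative f + 3 * X * derivative f) * c8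
  rw [e]
  ext n
  rcases n with _ | _ | _ | n
  · simp only [coeff_add, mul_coeff_zero, coeff_X_zero, zero_mul, mul_zero,
      coeff_derivative, hc, coeff_C_zero, KK]
    push_cast
    ring
  · have h := hrec 1 le_rfl
    simp only [coeff_add, coeff_C_mul, coeff_X_mul, mul_coeff_zero, coeff_X_zero, zero_mul,
      mul_zero, coeff_derivative, hc, coeff_C_succ]
    unfold NN LL at *
    push_cast at h ⊢
    norm_num at h ⊢
    linarith
  · have h := hrec 2 (by norm_num)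
    simp only [coeff_add, coeff_C_mul, coeff_X_mul, mul_coeff_zero, coeff_X_zero, zero_mul,
      mul_zero, coeff_derivative, hc, coeff_C_succ]
    unfold NN LL at *
    push_cast at h ⊢
    norm_num at h ⊢
    linarith
  · have h := hrec (n + 3) (by omega)
    simp only [coeff_add, coeff_C_mul, coeff_X_mul, coeff_derivative, hc, coeff_C_succ]
    have e1 : n + 3 - 1 = n + 2 := by omega
    rw [e1] at h
    unfold NN LL at *
    push_cast at h ⊢
    have e2 : n + 1 + 1 + 1 = n + 3 := rfl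
    have e3 : n + 1 + 1 = n + 2 := rfl
    rw [e2, e3]
    linear_combination h / 2


/-- evaluated form -/
theorem uode_eval {m : ℕ} {p : ℕ → ℝ} (hp : IsLaw m p) (u : ℝ) :
    (3 * u + 1) ^ 2 * (u * (derivative (derivative (Ph m p))).eval u +
        1 / 2 * (derivative (Ph m p)).eval u) +
      (3 * u + 1) * (6 * u * (derivative (Ph m p)).eval u + 3 / 2 * (Ph m p).eval u) -
        9 / 4 * LL m * (u - 1) * (Ph m p).eval u = KK m p := by
  have h := congrArg (eval u) (uode hp)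
  simpa only [eval_add, eval_sub, eval_mul, eval_pow, eval_C, eval_X, eval_one] using h

/-- the variable `u` on the first partner -/
noncomputable def uu (t : ℝ) : ℝ := -3 * (1 - t) ^ 2 / (3 + t) ^ 2

noncomputable def V0 (m : ℕ) (p : ℕ → ℝ) (t : ℝ) : ℝ := (Ph m p).eval (uu t) / (3 + t) ^ 2

noncomputable def V1 (m : ℕ) (p : ℕ → ℝ) (t : ℝ) : ℝ :=
  24 * (1 - t) * (derivative (Ph m p)).eval (uu t) / (3 + t) ^ 5 -
    2 * (Ph m p).eval (uu t) / (3 + t) ^ 3

noncomputable def V2 (m : ℕ) (p : ℕ → ℝ) (t : ℝ) : ℝ :=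
  576 * (1 - t) ^ 2 * (derivative (derivative (Ph m p))).eval (uu t) / (3 + t) ^ 8 +
    (144 * t - 240) * (derivative (Ph m p)).eval (uu t) / (3 + t) ^ 6 +
    6 * (Ph m p).eval (uu t) / (3 + t) ^ 4

theorem uu_deriv {t : ℝ} (ht : 3 + t ≠ 0) : HasDerivAt uu (24 * (1 - t) / (3 + t) ^ 3) t := by
  have h1 : HasDerivAt (fun t : ℝ => -3 * (1 - t) ^ 2) (-3 * (2 * (1 - t) * (-1))) t := by
    have h0 : HasDerivAt (fun t : ℝ => 1 - t) (-1) t := by
      simpa using (hasDerivAt_id t).const_sub 1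
    have := (h0.fun_pow 2).const_mul (-3)
    simpa using this
  have h2 : HasDerivAt (fun t : ℝ => (3 + t) ^ 2) (2 * (3 + t)) t := by
    have h0 : HasDerivAt (fun t : ℝ => 3 + t) 1 t := by
      simpa using (hasDerivAt_id t).const_add 3
    simpa using h0.fun_pow 2
  have h3 := h1.fun_div h2 (by positivity)
  refine h3.congr_deriv ?_
  field_simp
  ring

theorem eval_uu_deriv (f : ℝ[X]) {t : ℝ} (ht : 3 + t ≠ 0) :
    HasDerivAt (fun t => f.eval (uu t)) ((derivative f).eval (uu t) * (24 * (1 - t) / (3 + t) ^ 3)) t :=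
  (f.hasDerivAt (uu t)).comp t (uu_deriv ht)

theorem pow_deriv (n : ℕ) (t : ℝ) :
    HasDerivAt (fun t : ℝ => (3 + t) ^ (n + 1)) ((n + 1) * (3 + t) ^ n) t := by
  have h0 : HasDerivAt (fun t : ℝ => 3 + t) 1 t := by
    simpa using (hasDerivAt_id t).const_add 3
  have := h0.fun_pow (n + 1)
  simpa using this

theorem V0_deriv (m : ℕ) (p : ℕ → ℝ) {t : ℝ} (ht : 3 + t ≠ 0) :
    HasDerivAt (V0 m p) (V1 m p t) t := by
  have h1 := eval_uu_deriv (Ph m p) ht
  have h2 := pow_deriv 1 t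
  have h3 := h1.fun_div h2 (by positivity)
  refine h3.congr_deriv ?_
  unfold V1
  push_cast
  field_simp
  ring

theorem V1_deriv (m : ℕ) (p : ℕ → ℝ) {t : ℝ} (ht : 3 + t ≠ 0) :
    HasDerivAt (V1 m p) (V2 m p t) t := by
  have h0 : HasDerivAt (fun t : ℝ => 24 * (1 - t)) (24 * (-1)) t := by
    have : HasDerivAt (fun t : ℝ => 1 - t) (-1) t := by
      simpa using (hasDerivAt_id t).const_sub 1
    exact this.const_mul 24
  have h1 := (h0.fun_mul (eval_uu_deriv (derivative (Ph m p)) ht)).fun_div (pow_deriv 4 t)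
    (by positivity)
  have h2 := ((eval_uu_deriv (Ph m p) ht).const_mul 2).fun_div (pow_deriv 2 t) (by positivity)
  refine (h1.fun_sub h2).congr_deriv ?_
  unfold V2
  push_cast
  field_simp
  ring

/-- coefficients of the equation in `t` -/
noncomputable def ca (t : ℝ) : ℝ := -((9 - t ^ 2) ^ 2 * (3 + t ^ 2) ^ 2 / 6)
noncomputable def cb (t : ℝ) : ℝ :=
  -(t ^ 2 * (9 - t ^ 2) ^ 2 * (3 + t ^ 2) + 9 * (1 - t ^ 2) * (9 - t ^ 2) * (3 + t ^ 2))
noncomputable def cc (m : ℕ) (t : ℝ) : ℝ :=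
  t ^ 2 * (9 - t ^ 2) ^ 2 * (3 - t ^ 2) - 18 * t ^ 2 * (1 - t ^ 2) * (9 - t ^ 2) +
    9 / 2 * LL m * (3 + t ^ 2) ^ 3

theorem V_ode {m : ℕ} {p : ℕ → ℝ} (hp : IsLaw m p) {t : ℝ} (ht : 3 + t ≠ 0) :
    t ^ 2 * ca t * V2 m p t + t * cb t * V1 m p t + cc m t * V0 m p t =
      KK m p / 2 * (3 + t ^ 2) ^ 2 := by
  have h := uode_eval hp (uu t)
  unfold V2 V1 V0 ca cb cc
  set f0 := (Ph m p).eval (uu t)
  set f1 := (derivative (Ph m p)).eval (uu t)
  set f2 := (derivative (derivative (Ph m p))).eval (uu t)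
  rw [← h]
  unfold uu
  field_simp
  ring

/-- the odd part -/
noncomputable def yy (m : ℕ) (p : ℕ → ℝ) (t : ℝ) : ℝ := V0 m p t - V0 m p (-t)

theorem yy_deriv (m : ℕ) (p : ℕ → ℝ) {t : ℝ} (h1 : 3 + t ≠ 0) (h2 : 3 + -t ≠ 0) :
    HasDerivAt (yy m p) (V1 m p t + V1 m p (-t)) t := by
  have h3 := (V0_deriv m p h2).comp t (hasDerivAt_neg t)
  have h4 := (V0_deriv m p h1).sub h3
  refine h4.congr_deriv ?_
  ring

theorem yy_deriv2 (m : ℕ) (p : ℕ → ℝ) {t : ℝ} (h1 : 3 + t ≠ 0) (h2 : 3 + -t ≠ 0) :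
    HasDerivAt (fun t => V1 m p t + V1 m p (-t)) (V2 m p t - V2 m p (-t)) t := by
  have h3 := (V1_deriv m p h2).comp t (hasDerivAt_neg t)
  have h4 := (V1_deriv m p h1).add h3
  refine h4.congr_deriv ?_
  ring

theorem yy_ode {m : ℕ} {p : ℕ → ℝ} (hp : IsLaw m p) {t : ℝ} (h1 : 3 + t ≠ 0) (h2 : 3 + -t ≠ 0) :
    t ^ 2 * ca t * (V2 m p t - V2 m p (-t)) + t * cb t * (V1 m p t + V1 m p (-t)) +
      cc m t * yy m p t = 0 := by
  have e1 := V_ode hp h1
  have e2 := V_ode hp h2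
  have f1 : ca (-t) = ca t := by unfold ca; ring
  have f2 : cb (-t) = cb t := by unfold cb; ring
  have f3 : cc m (-t) = cc m t := by unfold cc; ring
  rw [f1, f2, f3] at e2
  unfold yy
  linear_combination e1 - e2

theorem V0_analytic (m : ℕ) (p : ℕ → ℝ) : AnalyticAt ℝ (V0 m p) 0 := by
  have h3 : AnalyticAt ℝ (fun t : ℝ => (3 + t) ^ 2) 0 := (analyticAt_const.add analyticAt_id).pow 2
  have hne : (fun t : ℝ => (3 + t) ^ 2) 0 ≠ 0 := by norm_num
  have hu : AnalyticAt ℝ uu 0 := by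
    have h1 : AnalyticAt ℝ (fun t : ℝ => -3 * (1 - t) ^ 2) 0 :=
      analyticAt_const.mul ((analyticAt_const.sub analyticAt_id).pow 2)
    exact h1.div h3 hne
  have h4 := hu.aeval_polynomial (Ph m p)
  simp only [coe_aeval_eq_eval] at h4
  exact h4.div h3 hne

theorem yy_analytic (m : ℕ) (p : ℕ → ℝ) : AnalyticAt ℝ (yy m p) 0 := by
  have h1 : AnalyticAt ℝ (fun t : ℝ => V0 m p (-t)) 0 :=
    AnalyticAt.fun_comp (by rw [neg_zero]; exact V0_analytic m p) analyticAt_id.neg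
  exact (V0_analytic m p).sub h1

/-- order of vanishing of a solution of a Fuchsian equation -/
theorem order_of_ode {y y1 y2 a b c : ℝ → ℝ} (hy : AnalyticAt ℝ y 0)
    (h1 : ∀ᶠ t in 𝓝 (0 : ℝ), HasDerivAt y (y1 t) t)
    (h2 : ∀ᶠ t in 𝓝 (0 : ℝ), HasDerivAt y1 (y2 t) t)
    (ha : ContinuousAt a 0) (hb : ContinuousAt b 0) (hc : ContinuousAt c 0)
    (hode : ∀ᶠ t in 𝓝 (0 : ℝ), t ^ 2 * a t * y2 t + t * b t * y1 t + c t * y t = 0) {N : ℕ}
    (hind : ∀ n : ℕ, n < N → a 0 * (n * (n - 1)) + b 0 * n + c 0 ≠ 0) :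
    ∃ g : ℝ → ℝ, AnalyticAt ℝ g 0 ∧ ∀ᶠ t in 𝓝 (0 : ℝ), y t = t ^ N * g t := by
  by_cases h0 : ∀ᶠ t in 𝓝 (0 : ℝ), y t = 0
  · refine ⟨fun _ => 0, analyticAt_const, ?_⟩
    filter_upwards [h0] with t ht
    rw [ht, mul_zero]
  obtain ⟨n, g, hg, hg0, hgy⟩ := hy.exists_eventuallyEq_pow_smul_nonzero_iff.mpr h0
  simp only [sub_zero, smul_eq_mul] at hgy
  by_cases hn : N ≤ n
  · refine ⟨fun t => t ^ (n - N) * g t, (analyticAt_id.pow _).mul hg, ?_⟩
    filter_upwards [hgy] with t ht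
    rw [ht, ← mul_assoc, ← pow_add]
    congr 2
    omega
  exfalso
  push Not at hn
  -- `t y' = t ^ n h`
  set g1 := deriv g with hg1
  have hg1a : AnalyticAt ℝ g1 0 := hg.deriv
  have hgd : ∀ᶠ t in 𝓝 (0 : ℝ), HasDerivAt g (g1 t) t :=
    hg.eventually_analyticAt.mono fun t ht => ht.differentiableAt.hasDerivAt
  have hpow : ∀ (k : ℕ) (t : ℝ), t * (k * t ^ (k - 1)) = k * t ^ k := by
    intro k t
    rcases k with _ | k
    · simp
    · rw [Nat.add_sub_cancel, pow_succ]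
      ring
  set w : ℝ → ℝ := fun t => n * g t + t * g1 t with hw
  have hwa : AnalyticAt ℝ w 0 := (analyticAt_const.mul hg).add (analyticAt_id.mul hg1a)
  have hy1 : ∀ᶠ t in 𝓝 (0 : ℝ), t * y1 t = t ^ n * w t := by
    filter_upwards [h1, hgy.eventually_nhds, hgd] with t e1 e2 e3
    have e4 : HasDerivAt (fun t => t ^ n * g t) (n * t ^ (n - 1) * g t + t ^ n * g1 t) t :=
      (hasDerivAt_pow n t).mul e3
    have e5 := (e1.congr_of_eventuallyEq (EventuallyEq.symm e2)).unique e4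
    rw [e5, hw]
    simp only
    have := hpow n t
    linear_combination g t * this
  have hwd : ∀ᶠ t in 𝓝 (0 : ℝ), HasDerivAt w (deriv w t) t :=
    hwa.eventually_analyticAt.mono fun t ht => ht.differentiableAt.hasDerivAt
  have hy2 : ∀ᶠ t in 𝓝 (0 : ℝ), t ^ 2 * y2 t = t ^ n * (n * w t + t * deriv w t - w t) := by
    filter_upwards [h2, hy1, hy1.eventually_nhds, hwd] with t e1 e0 e2 e3
    have e4 : HasDerivAt (fun t => t ^ n * w t) (n * t ^ (n - 1) * w t + t ^ n * deriv w t) t :=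
      (hasDerivAt_pow n t).mul e3
    have e6 : HasDerivAt (fun t => t * y1 t) (1 * y1 t + t * y2 t) t := (hasDerivAt_id t).mul e1
    have e5 := (e6.congr_of_eventuallyEq (EventuallyEq.symm e2)).unique e4
    have := hpow n t
    linear_combination t * e5 - e0 + w t * this
  set B : ℝ → ℝ := fun t => a t * (n * w t + t * deriv w t - w t) + b t * w t + c t * g t with hB
  have hBc : ContinuousAt B 0 := by
    have hwc := hwa.continuousAt
    have hwdc := hwa.deriv.continuousAt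
    have hgc := hg.continuousAt
    exact ((ha.mul (((continuousAt_const.mul hwc).add (continuousAt_id.mul hwdc)).sub hwc)).add
      (hb.mul hwc)).add (hc.mul hgc)
  have hB0 : ∀ᶠ t in 𝓝[≠] (0 : ℝ), B t = 0 := by
    have e : ∀ᶠ t in 𝓝 (0 : ℝ), t ≠ 0 → B t = 0 := by
      filter_upwards [hode, hy1, hy2, hgy] with t e1 e2 e3 e4 ht
      have e5 : t ^ n * B t = 0 := by
        rw [hB]
        simp only
        linear_combination e1 - a t * e3 - b t * e2 - c t * e4
      exact (mul_eq_zero.mp e5).resolve_left (pow_ne_zero _ ht)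
    exact eventually_nhdsWithin_iff.mpr e
  have hlim : Tendsto B (𝓝[≠] 0) (𝓝 (B 0)) := hBc.tendsto.mono_left nhdsWithin_le_nhds
  have hzero : B 0 = 0 := tendsto_nhds_unique hlim
    (tendsto_const_nhds.congr' (hB0.mono fun t ht => ht.symm))
  have : B 0 = (a 0 * (n * (n - 1)) + b 0 * n + c 0) * g 0 := by
    rw [hB, hw]
    simp only [zero_mul, add_zero]
    ring
  rw [this] at hzero
  rcases mul_eq_zero.mp hzero with h | h
  · exact hind n hn h
  · exact hg0 h

/-- the odd part vanishes of order `2 m + 1` -/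
theorem yy_order {m : ℕ} {p : ℕ → ℝ} (hp : IsLaw m p) :
    ∃ g : ℝ → ℝ, AnalyticAt ℝ g 0 ∧ ∀ᶠ t in 𝓝 (0 : ℝ), yy m p t = t ^ (2 * m + 1) * g t := by
  have hne1 : ∀ᶠ t in 𝓝 (0 : ℝ), 3 + t ≠ 0 :=
    (continuousAt_const.add continuousAt_id).eventually_ne (by norm_num)
  have hne2 : ∀ᶠ t in 𝓝 (0 : ℝ), 3 + -t ≠ 0 :=
    (continuousAt_const.add continuousAt_id.neg).eventually_ne (by norm_num)
  refine order_of_ode (y1 := fun t => V1 m p t + V1 m p (-t))
    (y2 := fun t => V2 m p t - V2 m p (-t)) (a := ca) (b := cb) (c := cc m)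
    (yy_analytic m p) ?_ ?_ ?_ ?_ ?_ ?_ ?_
  · filter_upwards [hne1, hne2] with t e1 e2 using yy_deriv m p e1 e2
  · filter_upwards [hne1, hne2] with t e1 e2 using yy_deriv2 m p e1 e2
  · unfold ca; fun_prop
  · unfold cb; fun_prop
  · unfold cc; fun_prop
  · filter_upwards [hne1, hne2] with t e1 e2 using yy_ode hp e1 e2
  · intro n hn
    have hn' : (n : ℝ) + 1 ≤ 2 * m + 1 := by exact_mod_cast hn
    have hn0 : (0 : ℝ) ≤ n := Nat.cast_nonneg n
    have e : ca 0 * (n * (n - 1)) + cb 0 * n + cc m 0 = 243 / 2 * (LL m - n * (n + 1)) := by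
      unfold ca cb cc
      ring
    rw [e]
    have : (n : ℝ) * (n + 1) < LL m := by
      unfold LL
      nlinarith
    intro h
    linarith

end LCB
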