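import Pool.Agent.Helper25.LC.Ident2
import Pool.Agent.Helper34.LC.Uniq

/-!
L-SHAPED CORRIDOR, module [B], part 4: the weights `al / nu` as residues.
-/

set_option autoImplicit false

namespace LCB
open Finset Polynomial LCor Filter Topology IP.Slit LCA

theorem BP_map (r : ℕ) (x : ℕ → ℝ) :
    (BP r x).map Complex.ofRealHom = BP r (fun i => (x i : ℂ)) := by
  unfold BP
  rw [Polynomial.map_sum]
  refine sum_congr rfl fun j _ => ?_
  rw [Polynomial.map_mul, map_C, Polynomial.map_pow, map_X, ka_ofReal]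
  rfl

theorem BP_evalR {r : ℕ} (x : ℕ → ℝ) {j : ℕ} (hj : j < r) :
    (BP r x).eval (x j ^ 3 - 3 * x j) = (-1) ^ (r - 1) * (∏ i ∈ (range r).erase j, qq (x j) (x i)) *
      Chi (r - 1) (fun i => x (IP.skip j i)) := by
  have h := BP_eval (fun i => (x i : ℂ)) hj
  have h1 : (BP r (fun i => (x i : ℂ))).eval ((x j : ℂ) ^ 3 - 3 * (x j : ℂ)) =
      (((BP r x).eval (x j ^ 3 - 3 * x j) : ℝ) : ℂ) := by
    rw [← BP_map]
    have e : (x j : ℂ) ^ 3 - 3 * (x j : ℂ) = Complex.ofRealHom (x j ^ 3 - 3 * x j) := by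
      simp
    rw [e, eval_map_apply]
    rfl
  rw [h1] at h
  have h2 := Chi_ofReal (r - 1) (fun i => x (IP.skip j i))
  rw [h2] at h
  have h3 : ∀ i, qq (x j : ℂ) (x i : ℂ) = ((qq (x j) (x i) : ℝ) : ℂ) := by
    intro i
    unfold qq
    push_cast
    ring
  simp only [h3] at h
  exact_mod_cast h

theorem range_skip {r j : ℕ} (hj : j < r + 1) :
    Multiset.range (r + 1) = j ::ₘ (Multiset.range r).map (IP.skip j) := by
  have hinj : Function.Injective (IP.skip j) := by
    intro a b hab
    unfold IP.skip at hab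
    split_ifs at hab <;> omega
  have h1 : (j ::ₘ (Multiset.range r).map (IP.skip j)).Nodup := by
    rw [Multiset.nodup_cons]
    refine ⟨?_, (Multiset.nodup_map_iff_of_injective hinj).mpr (Multiset.nodup_range r)⟩
    intro h
    obtain ⟨a, -, h2⟩ := Multiset.mem_map.mp h
    unfold IP.skip at h2
    split_ifs at h2 <;> omega
  rw [Multiset.Nodup.ext (Multiset.nodup_range _) h1]
  intro a
  rw [Multiset.mem_cons, Multiset.mem_map, Multiset.mem_range]
  constructor
  · intro ha
    by_cases h : a = j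
    · exact Or.inl h
    · right
      by_cases h2 : a < j
      · refine ⟨a, Multiset.mem_range.mpr (by omega), ?_⟩
        unfold IP.skip
        rw [if_pos h2]
      · refine ⟨a - 1, Multiset.mem_range.mpr (by omega), ?_⟩
        unfold IP.skip
        rw [if_neg (by omega)]
        omega
  · rintro (rfl | ⟨i, hi, rfl⟩)
    · exact hj
    · rw [Multiset.mem_range] at hi
      unfold IP.skip
      split_ifs <;> omega

/-- value of `BP` at the points of `B` -/
theorem BP_at {m : ℕ} {x : ℕ → ℝ} {B : Finset ℝ} {v : ℝ}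
    (hx : (Multiset.range (2 * m + 1)).map x = B.val + B.val + {v}) {b : ℝ} (hb : b ∈ B) :
    (BP (2 * m + 1) x).eval (b ^ 3 - 3 * b) =
      (3 * b ^ 2 - 3) * (∏ i ∈ B.erase b, qq b i) ^ 2 * qq b v *
        chiM (B.val + (B.erase b).val + {v}) := by
  have hmem : b ∈ (Multiset.range (2 * m + 1)).map x := by
    rw [hx, Multiset.mem_add, Multiset.mem_add]
    exact Or.inl (Or.inl hb)
  obtain ⟨j, hj, hxj⟩ := Multiset.mem_map.mp hmem
  rw [Multiset.mem_range] at hj
  have h1 := BP_evalR x hj
  rw [hxj] at h1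
  have e : B.val + B.val + {v} = b ::ₘ (B.val + (B.erase b).val + {v}) := by
    conv_lhs => rw [val_erase hb]
    conv_rhs => rw [val_erase hb]
    simp only [← Multiset.singleton_add]
    abel
  have h2 : (Multiset.range (2 * m)).map (fun i => x (IP.skip j i)) =
      B.val + (B.erase b).val + {v} := by
    have h3 := hx
    rw [range_skip hj, Multiset.map_cons, hxj, e, Multiset.cons_inj_right, Multiset.map_map] at h3
    exact h3
  rw [h1, show 2 * m + 1 - 1 = 2 * m by omega, ← chiM_map_range (2 * m), h2,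
    wh_prod_skip hj]
  have h4 : ∏ k ∈ range (2 * m), qq b (x (IP.skip j k)) =
      (((Multiset.range (2 * m)).map (fun i => x (IP.skip j i))).map (qq b)).prod := by
    rw [prod_map_range]
  rw [h4, h2, Multiset.map_add, Multiset.map_add, Multiset.prod_add, Multiset.prod_add,
    Multiset.map_singleton, Multiset.prod_singleton]
  have h5 : (B.val.map (qq b)).prod = qq b b * ∏ i ∈ B.erase b, qq b i := by
    rw [Finset.mul_prod_erase B (qq b) hb]
    rfl
  have h6 : ((B.erase b).val.map (qq b)).prod = ∏ i ∈ B.erase b, qq b i := rfl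
  rw [h5, h6, show (-1 : ℝ) ^ (2 * m) = 1 by rw [pow_mul]; norm_num]
  have h7 : qq b b = 3 * b ^ 2 - 3 := by unfold qq; ring
  rw [h7]
  ring

theorem al_eq {m : ℕ} {x : ℕ → ℝ} {B : Finset ℝ} {v : ℝ}
    (hx : (Multiset.range (2 * m + 1)).map x = B.val + B.val + {v}) {b : ℝ} (hb : b ∈ B) :
    al B v b * (∏ i ∈ B.erase b, (b - i)) * (qq b v * ∏ i ∈ B, qq b i) =
      (3 * b ^ 2 - 3) * (BP (2 * m + 1) x).eval (b ^ 3 - 3 * b) := by
  rw [BP_at hx hb]
  unfold al
  have h1 : (∏ i ∈ B.erase b, qq i b / (b - i)) * ∏ i ∈ B.erase b, (b - i) =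
      ∏ i ∈ B.erase b, qq b i := by
    rw [← prod_mul_distrib]
    refine prod_congr rfl fun i hi => ?_
    have : b - i ≠ 0 := sub_ne_zero.mpr (Finset.ne_of_mem_erase hi).symm
    rw [div_mul_cancel₀ _ this, qq_comm]
  have h7 : qq b b = 3 * b ^ 2 - 3 := by unfold qq; ring
  rw [← Finset.mul_prod_erase B (qq b) hb, h7, ← h1]
  ring

/-- the sequence `B, B, v` -/
def xs (m : ℕ) (y : ℕ → ℝ) (v : ℝ) (i : ℕ) : ℝ :=
  if i < m then y i else if i < 2 * m then y (i - m) else v

theorem xs_range {m : ℕ} {y : ℕ → ℝ} {B : Finset ℝ} (v : ℝ)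
    (hy : B.val = (Multiset.range m).map y) :
    (Multiset.range (2 * m + 1)).map (xs m y v) = B.val + B.val + {v} := by
  rw [Multiset.range_succ, Multiset.map_cons, two_mul, Multiset.range_add, Multiset.map_add,
    Multiset.map_map]
  have h1 : (Multiset.range m).map (xs m y v) = B.val := by
    rw [hy]
    refine Multiset.map_congr rfl fun i hi => ?_
    rw [Multiset.mem_range] at hi
    unfold xs
    rw [if_pos hi]
  have h2 : (Multiset.range m).map (xs m y v ∘ fun i => m + i) = B.val := by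
    rw [hy]
    refine Multiset.map_congr rfl fun i hi => ?_
    rw [Multiset.mem_range] at hi
    simp only [Function.comp_apply]
    unfold xs
    rw [if_neg (by omega), if_pos (by omega)]
    congr 1
    omega
  have h3 : xs m y v (m + m) = v := by
    unfold xs
    rw [if_neg (by omega), if_neg (by omega)]
  rw [h3, ← Multiset.singleton_add, add_comm]
  congr 1
  congr 1

theorem nu_eq {m : ℕ} {x : ℕ → ℝ} {B : Finset ℝ} {v : ℝ}
    (hx : (Multiset.range (2 * m + 1)).map x = B.val + B.val + {v}) :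
    nu B v = Chi (2 * m + 1) x := by
  unfold nu
  rw [← hx, chiM_map_range]

end LCB
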